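import Mathlib

set_option autoImplicit false

namespace Pool.Agent.Helper358.WB

open Set Topology

/-- The branching index: a block `j` and a subset of `{0, …, 2j+1}` with exactly `j + 1` elements. -/
abbrev II : Type := Σ j : ℕ, {A : Finset (Fin (2 * j + 2)) // A.card = j + 1}

/-- The Cantor space `∏ j, {0, …, 2j+1}` attached to every node. -/
abbrev OM : Type := ∀ j : ℕ, Fin (2 * j + 2)

/-- `z ∈ A_n`. -/
def mem (n : II) (z : OM) : Prop := z n.1 ∈ n.2.1

/-- Trees: `s t n` is the `n`-th immediate successor of the node `t`. -/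
structure IsTree {T I : Type} [SemilatticeInf T] (s : T → I → T) : Prop where
  lt_s : ∀ t n, t < s t n
  ex_s : ∀ t v, t < v → ∃ n, s t n ≤ v
  s_inj : ∀ t n n' v, s t n ≤ v → s t n' ≤ v → n = n'
  le_s : ∀ u t n, u ≤ s t n → u ≤ t ∨ u = s t n
  tree : ∀ u v w : T, u ≤ w → v ≤ w → u ≤ v ∨ v ≤ u
  wf : WellFounded (fun a b : T => a < b)
  cnt : ∀ v : T, {u | u ≤ v}.Countable
  ub : ∀ x : ℕ → T, (∀ k, x k ≤ x (k + 1)) → ∃ y, ∀ k, x k ≤ y
  ne : Nonempty T

section

variable {T : Type} [SemilatticeInf T]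

/-- The compact set of subsets of the tree: the empty set, the cones `{v | u ≤ v}` and the sets
`{v | ∃ n, z ∈ A_n ∧ s t n ≤ v}`. -/
def KS (s : T → II → T) : Set (T → Bool) :=
  {k | (∀ v, k v = false) ∨ (∃ u, ∀ v, k v = true ↔ u ≤ v) ∨
    (∃ t, ∃ z : OM, ∀ v, k v = true ↔ ∃ n, mem n z ∧ s t n ≤ v)}

/-- The compact space. -/
abbrev KK (s : T → II → T) : Type := ↥(KS s)

/-- The point given by the empty set. -/
def z0 (s : T → II → T) : KK s := ⟨fun _ => false, Or.inl (fun _ => rfl)⟩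

open Classical in
/-- The point given by the cone above `u`. -/
noncomputable def vv (s : T → II → T) (u : T) : KK s :=
  ⟨fun v => decide (u ≤ v), Or.inr (Or.inl ⟨u, fun v => by simp⟩)⟩

open Classical in
/-- The point `z` of the Cantor set attached at the node `t`. -/
noncomputable def ss (s : T → II → T) (t : T) (z : OM) : KK s :=
  ⟨fun v => decide (∃ n, mem n z ∧ s t n ≤ v), Or.inr (Or.inr ⟨t, z, fun v => by simp⟩)⟩

theorem vv_apply (s : T → II → T) (u v : T) : (vv s u).1 v = true ↔ u ≤ v := by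
  simp [vv]

theorem ss_apply (s : T → II → T) (t : T) (z : OM) (v : T) :
    (ss s t z).1 v = true ↔ ∃ n, mem n z ∧ s t n ≤ v := by
  simp [ss]

theorem z0_apply (s : T → II → T) (v : T) : (z0 s).1 v = false := rfl

theorem KK_cases (s : T → II → T) (k : KK s) :
    k = z0 s ∨ (∃ u, k = vv s u) ∨ ∃ t z, k = ss s t z := by
  obtain ⟨k, hk | ⟨u, hu⟩ | ⟨t, z, hz⟩⟩ := k
  · left
    apply Subtype.ext
    funext v
    simp [hk v, z0]
  · right; left
    refine ⟨u, Subtype.ext (funext fun v => ?_)⟩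
    rw [Bool.eq_iff_iff, hu v, vv_apply]
  · right; right
    refine ⟨t, z, Subtype.ext (funext fun v => ?_)⟩
    rw [Bool.eq_iff_iff, hz v, ss_apply]

/-- The coordinate function of `u`. -/
noncomputable def fu (s : T → II → T) (u : T) : C(KK s, ℝ) where
  toFun k := if k.1 u = true then 1 else 0
  continuous_toFun := by
    have h1 : Continuous (fun b : Bool => if b = true then (1 : ℝ) else 0) :=
      continuous_of_discreteTopology
    exact h1.comp ((continuous_apply u).comp continuous_subtype_val)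

/-- `g(V_u) - g(∅)` -/
noncomputable def dv (s : T → II → T) (g : KK s → ℝ) (u : T) : ℝ := g (vv s u) - g (z0 s)

/-- `g(S_{t,z}) - g(∅)` -/
noncomputable def dS (s : T → II → T) (g : KK s → ℝ) (t : T) (z : OM) : ℝ :=
  g (ss s t z) - g (z0 s)

/-- The node `t` is big for `g`. -/
def Bg (s : T → II → T) (d : ℝ) (g : KK s → ℝ) (t : T) : Prop :=
  d < |dv s g t| ∨ ∃ z, d < |dS s g t z|

open Classical in
/-- The event at the node `t` in direction `n`. -/
def Ev (s : T → II → T) (d' θ : ℝ) (g : KK s → ℝ) (t : T) (n : II) : Prop :=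
  |dv s g (s t n)| < d' ∨ ∃ z, θ < |dS s g t z - (if mem n z then dv s g (s t n) else 0)|

/-- The set of big events. -/
def ZZ (s : T → II → T) (d' d'' : ℝ) (g : KK s → ℝ) : Set (T × II) :=
  {p | Bg s d'' g p.1 ∧ Ev s d' (d' / 10) g p.1 p.2 ∧ ∃ b, s p.1 p.2 ≤ b ∧ Bg s d'' g b}

/-- `c` is the set of maximal big nodes of `g`, and every big node is below one of them. -/
def Top (s : T → II → T) (d'' : ℝ) (c : Finset T) (g : KK s → ℝ) : Prop :=
  (∀ a ∈ c, Bg s d'' g a) ∧ (∀ a, Bg s d'' g a → ∃ b ∈ c, a ≤ b) ∧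
    (∀ a ∈ c, ∀ b ∈ c, a ≤ b → a = b)

/-- No value `|g(V_u) - g(∅)|` lies in `[d', d'']`. -/
def Gen (s : T → II → T) (d' d'' : ℝ) (g : KK s → ℝ) : Prop :=
  ∀ u, |dv s g u| < d' ∨ d'' < |dv s g u|

/-- The finite set `Φ` of coordinates determines `g` up to `ε`. -/
def Det (s : T → II → T) (ε : ℝ) (g : KK s → ℝ) (Φ : Finset T) : Prop :=
  ∀ k k' : KK s, (∀ p ∈ Φ, k.1 p = k'.1 p) → |g k - g k'| < ε

/-- There is an antichain of `r` big nodes. -/
def AC (s : T → II → T) (d'' : ℝ) (r : ℕ) (g : KK s → ℝ) : Prop :=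
  ∃ F : Finset T, F.card = r ∧ (∀ a ∈ F, Bg s d'' g a) ∧ ∀ a ∈ F, ∀ b ∈ F, a ≤ b → a = b

/-- There are at least `m` big events. -/
def ZC (s : T → II → T) (d' d'' : ℝ) (m : ℕ) (g : KK s → ℝ) : Prop :=
  ∃ Q : Finset (T × II), Q.card = m ∧ ∀ p ∈ Q, p ∈ ZZ s d' d'' g

/-- The points of the compact space in a block below an element of `c`. -/
def InG (s : T → II → T) (c : Finset T) (k : KK s) : Prop :=
  k = z0 s ∨ ∃ t, (∃ a ∈ c, t ≤ a) ∧ (k = vv s t ∨ ∃ z, k = ss s t z)

end

/-- The topology of pointwise convergence on `C(K)`. -/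
@[reducible] def tp (K : Type) [TopologicalSpace K] : TopologicalSpace C(K, ℝ) :=
  TopologicalSpace.induced (fun f : C(K, ℝ) => (⇑f : K → ℝ)) inferInstance

/-- The weak topology on `C(K)`. -/
@[reducible] def tw (K : Type) [TopologicalSpace K] : TopologicalSpace C(K, ℝ) :=
  TopologicalSpace.induced (fun f : C(K, ℝ) => fun φ : C(K, ℝ) →L[ℝ] ℝ => φ f) inferInstance

end Pool.Agent.Helper358.WB
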