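import Pool.Agent.Helper358.WB.Defs

set_option autoImplicit false

namespace Pool.Agent.Helper358.WB
open Set Topology


theorem tw_cont_sub {X : Type} (t : TopologicalSpace X) (f g : X → ℝ)
    (hf : @Continuous _ _ t _ f) (hg : @Continuous _ _ t _ g) :
    @Continuous _ _ t _ (fun x => f x - g x) := by
  exact hf.sub hg

theorem tw_cont_comp {X Y Z : Type} (tx : TopologicalSpace X) (ty : TopologicalSpace Y)
    (tz : TopologicalSpace Z) (f : X → Y) (g : Y → Z)
    (hf : @Continuous _ _ tx ty f) (hg : @Continuous _ _ ty tz g) :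
    @Continuous _ _ tx tz (fun x => g (f x)) := by
  exact hg.comp hf

theorem tw_eval_cont {K : Type} [TopologicalSpace K] (k k' : K) :
    @Continuous _ _ (tw K) _ (fun g : C(K, ℝ) => g k - g k') := by
  have h : ∀ φ : C(K, ℝ) →L[ℝ] ℝ, @Continuous _ _ (tw K) _ (fun g : C(K, ℝ) => φ g) := by
    intro φ
    have h0 : @Continuous _ _ (tw K) _ (fun f : C(K, ℝ) => fun φ : C(K, ℝ) →L[ℝ] ℝ => φ f) :=
      continuous_induced_dom
    exact tw_cont_comp (tw K) _ _ (fun f : C(K, ℝ) => fun φ : C(K, ℝ) →L[ℝ] ℝ => φ f)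
      (fun p : (C(K, ℝ) →L[ℝ] ℝ) → ℝ => p φ) h0 (continuous_apply φ)
  have h1 := h (ContinuousMap.evalCLM ℝ k)
  have h2 := h (ContinuousMap.evalCLM ℝ k')
  exact tw_cont_sub (tw K) _ _ h1 h2

theorem Bg_open {T : Type} [SemilatticeInf T] {s : T → II → T} (d : ℝ) (a : T) :
    IsOpen[tw (KK s)] {g : C(KK s, ℝ) | Bg s d g a} := by
  let _ : TopologicalSpace C(KK s, ℝ) := tw (KK s)
  have e : {g : C(KK s, ℝ) | Bg s d g a} = {g : C(KK s, ℝ) | d < |g (vv s a) - g (z0 s)|} ∪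
      ⋃ z, {g : C(KK s, ℝ) | d < |g (ss s a z) - g (z0 s)|} := by
    ext g
    simp only [Bg, dv, dS, Set.mem_union, Set.mem_iUnion]
    rfl
  rw [e]
  refine IsOpen.union ?_ (isOpen_iUnion fun z => ?_)
  · exact isOpen_lt continuous_const (continuous_abs.comp (tw_eval_cont _ _))
  · exact isOpen_lt continuous_const (continuous_abs.comp (tw_eval_cont _ _))

theorem AC_open {T : Type} [SemilatticeInf T] {s : T → II → T} (d : ℝ) (r : ℕ) :
    IsOpen[tw (KK s)] {g : C(KK s, ℝ) | AC s d r g} := by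
  let _ : TopologicalSpace C(KK s, ℝ) := tw (KK s)
  have e : {g : C(KK s, ℝ) | AC s d r g} =
      ⋃ F ∈ {F : Finset T | F.card = r ∧ ∀ a ∈ F, ∀ b ∈ F, a ≤ b → a = b},
        ⋂ a ∈ F, {g : C(KK s, ℝ) | Bg s d g a} := by
    ext g
    simp only [Set.mem_iUnion, Set.mem_iInter]
    constructor
    · rintro ⟨F, h1, h2, h3⟩
      exact ⟨F, ⟨h1, h3⟩, fun a ha => h2 a ha⟩
    · rintro ⟨F, ⟨h1, h3⟩, h2⟩
      exact ⟨F, h1, fun a ha => h2 a ha, h3⟩
  rw [e]
  exact isOpen_biUnion fun F _ => isOpen_biInter_finset fun a _ => Bg_open d a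

end Pool.Agent.Helper358.WB
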