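import Pool.Agent.Helper358.WB.Defs

set_option autoImplicit false

namespace Pool.Agent.Helper358.WB
open Set Topology


theorem Bg_open_aux {T : Type} [SemilatticeInf T] {s : T → II → T} (d : ℝ) (k k' : KK s) :
    IsOpen[tw (KK s)] {g : C(KK s, ℝ) | d < |g k - g k'|} := by
  let l : C(KK s, ℝ) →L[ℝ] ℝ := ContinuousMap.evalCLM ℝ k - ContinuousMap.evalCLM ℝ k'
  rw [isOpen_induced_iff]
  refine ⟨{φ | d < |φ l|}, ?_, ?_⟩
  · exact isOpen_lt continuous_const (continuous_abs.comp (continuous_apply l))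
  · ext g
    rfl

theorem Bg_open {T : Type} [SemilatticeInf T] {s : T → II → T} (d : ℝ) (t : T) :
    IsOpen[tw (KK s)] {g : C(KK s, ℝ) | Bg s d g t} := by
  have e : {g : C(KK s, ℝ) | Bg s d g t} = {g : C(KK s, ℝ) | d < |g (vv s t) - g (z0 s)|} ∪
      ⋃ z : OM, {g : C(KK s, ℝ) | d < |g (ss s t z) - g (z0 s)|} := by
    ext g
    simp only [mem_setOf_eq, mem_union, mem_iUnion, Bg, dv, dS]
  rw [e]
  exact @IsOpen.union _ _ _ (tw (KK s)) (Bg_open_aux d _ _)
    (@isOpen_iUnion _ _ (tw (KK s)) _ fun z => Bg_open_aux d _ _)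

end Pool.Agent.Helper358.WB
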