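import Pool.Agent.Helper358.WB.Defs

set_option autoImplicit false

namespace Pool.Agent.Helper358.WB
open Set Topology


theorem ZC_ncard {T : Type} [SemilatticeInf T] {s : T → II → T}
    (g : KK s → ℝ) (d' d'' : ℝ) (hfin : (ZZ s d' d'' g).Finite) :
    ZC s d' d'' (ZZ s d' d'' g).ncard g ∧ ¬ ZC s d' d'' ((ZZ s d' d'' g).ncard + 1) g := by
  constructor
  · refine ⟨hfin.toFinset, (Set.ncard_eq_toFinset_card _ hfin).symm, fun p hp => ?_⟩
    exact (Set.Finite.mem_toFinset hfin).mp hp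
  · rintro ⟨Q, hQ, h⟩
    have h1 : Q ⊆ hfin.toFinset := fun p hp => (Set.Finite.mem_toFinset hfin).mpr (h p hp)
    have h2 := Finset.card_le_card h1
    rw [hQ, Set.ncard_eq_toFinset_card _ hfin] at h2
    omega

end Pool.Agent.Helper358.WB
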