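import Pool.Agent.Helper358.WB.Defs

set_option autoImplicit false

namespace Pool.Agent.Helper358.WB
open Set Topology


section ZCaux

variable {T : Type} [SemilatticeInf T] {s : T → II → T} {X : Type} [TopologicalSpace X]
  (G : X → KK s → ℝ)

theorem ZC_open_ex {ι : Type} {p : ι → X → Prop} (h : ∀ i, IsOpen {x | p i x}) :
    IsOpen {x | ∃ i, p i x} := by
  have h1 : {x | ∃ i, p i x} = ⋃ i, {x | p i x} := by
    ext x
    simp
  rw [h1]
  exact isOpen_iUnion h

theorem ZC_open_Bg (hG : ∀ k, Continuous fun x => G x k) (d : ℝ) (t : T) :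
    IsOpen {x | Bg s d (G x) t} := by
  have h1 : IsOpen {x | d < |dv s (G x) t|} :=
    isOpen_lt continuous_const ((hG _).sub (hG _)).abs
  have h2 : IsOpen {x | ∃ z, d < |dS s (G x) t z|} :=
    ZC_open_ex fun z => isOpen_lt continuous_const ((hG _).sub (hG _)).abs
  exact h1.union h2

theorem ZC_open_Ev (hG : ∀ k, Continuous fun x => G x k) (d' θ : ℝ) (t : T) (n : II) :
    IsOpen {x | Ev s d' θ (G x) t n} := by
  classical
  have h1 : IsOpen {x | |dv s (G x) (s t n)| < d'} :=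
    isOpen_lt ((hG _).sub (hG _)).abs continuous_const
  have h2 : IsOpen {x | ∃ z, θ < |dS s (G x) t z - (if mem n z then dv s (G x) (s t n) else 0)|} := by
    refine ZC_open_ex fun z => ?_
    by_cases h : mem n z
    · simp only [if_pos h]
      exact isOpen_lt continuous_const (((hG _).sub (hG _)).sub ((hG _).sub (hG _))).abs
    · simp only [if_neg h]
      exact isOpen_lt continuous_const (((hG _).sub (hG _)).sub continuous_const).abs
  have h3 : {x | Ev s d' θ (G x) t n} = {x | |dv s (G x) (s t n)| < d'} ∪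
      {x | ∃ z, θ < |dS s (G x) t z - (if mem n z then dv s (G x) (s t n) else 0)|} := by
    ext x
    show Ev s d' θ (G x) t n ↔ (|dv s (G x) (s t n)| < d' ∨
      ∃ z, θ < |dS s (G x) t z - (if mem n z then dv s (G x) (s t n) else 0)|)
    unfold Ev
    refine or_congr Iff.rfl (exists_congr fun z => ?_)
    by_cases h : mem n z
    · rw [if_pos h]
    · rw [if_neg h]
  rw [h3]
  exact h1.union h2

theorem ZC_open_ZZ (hG : ∀ k, Continuous fun x => G x k) (d' d'' : ℝ) (p : T × II) :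
    IsOpen {x | p ∈ ZZ s d' d'' (G x)} := by
  have h1 := ZC_open_Bg G hG d'' p.1
  have h2 := ZC_open_Ev G hG d' (d' / 10) p.1 p.2
  have h3 : IsOpen {x | ∃ b, s p.1 p.2 ≤ b ∧ Bg s d'' (G x) b} :=
    ZC_open_ex fun b => isOpen_const.and (ZC_open_Bg G hG d'' b)
  exact h1.and (h2.and h3)

theorem ZC_open_gen (hG : ∀ k, Continuous fun x => G x k) (d' d'' : ℝ) (m : ℕ) :
    IsOpen {x | ZC s d' d'' m (G x)} := by
  refine ZC_open_ex fun Q => isOpen_const.and ?_
  have h1 : {x | ∀ p ∈ Q, p ∈ ZZ s d' d'' (G x)} = ⋂ p ∈ Q, {x | p ∈ ZZ s d' d'' (G x)} := by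
    ext x
    simp
  rw [h1]
  exact isOpen_biInter_finset fun p _ => ZC_open_ZZ G hG d' d'' p

end ZCaux

theorem ZC_open {T : Type} [SemilatticeInf T] {s : T → II → T} (d' d'' : ℝ) (m : ℕ) :
    IsOpen[tw (KK s)] {g : C(KK s, ℝ) | ZC s d' d'' m g} := by
  refine @ZC_open_gen T _ s C(KK s, ℝ) (tw (KK s)) (fun g k => g k) ?_ d' d'' m
  intro k
  have h1 : @Continuous _ _ (tw (KK s)) _
      (fun f : C(KK s, ℝ) => fun φ : C(KK s, ℝ) →L[ℝ] ℝ => φ f) := continuous_induced_dom
  exact @Continuous.comp _ _ _ (tw (KK s)) _ _ _ _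
    (continuous_apply (ContinuousMap.evalCLM ℝ k : C(KK s, ℝ) →L[ℝ] ℝ)) h1

end Pool.Agent.Helper358.WB
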