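import Pool.Agent.Helper358.WB.Defs

set_option autoImplicit false

namespace Pool.Agent.Helper358.WB
open Set Topology


theorem ZZ_finite {T : Type} [SemilatticeInf T] {s : T → II → T} (h : IsTree s)
    (hdet : ∀ (g : C(KK s, ℝ)) (ε : ℝ), 0 < ε → ∃ Φ : Finset T, Det s ε g Φ)
    (g : C(KK s, ℝ)) (d' d'' : ℝ) (h0 : 0 < d') (h1 : d' < d'') : (ZZ s d' d'' g).Finite := by
  classical
  obtain ⟨ε, hεdef⟩ : ∃ ε, ε = min (d' / 10) (d'' - d') := ⟨_, rfl⟩
  have hε : 0 < ε := by
    rw [hεdef]
    exact lt_min (by positivity) (by linarith)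
  have hε1 : ε ≤ d' / 10 := by rw [hεdef]; exact min_le_left _ _
  have hε2 : ε ≤ d'' - d' := by rw [hεdef]; exact min_le_right _ _
  obtain ⟨Φ, hΦ⟩ := hdet g ε hε
  have hz0 : ∀ v, (z0 s).1 v = false := fun v => rfl
  have F1 : ∀ b, Bg s d'' g b → ∃ q ∈ Φ, b ≤ q := by
    intro b hb
    by_contra hcon
    push Not at hcon
    rcases hb with hb | ⟨z, hz⟩
    · have h2 := hΦ (vv s b) (z0 s) (fun p hp => by
        rw [hz0, Bool.eq_false_iff]
        intro h3
        exact hcon p hp ((vv_apply s b p).1 h3))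
      unfold dv at hb
      linarith
    · have h2 := hΦ (ss s b z) (z0 s) (fun p hp => by
        rw [hz0, Bool.eq_false_iff]
        intro h3
        obtain ⟨n, -, hn⟩ := (ss_apply s b z p).1 h3
        exact hcon p hp ((h.lt_s b n).le.trans hn))
      unfold dS at hz
      linarith
  have F2 : ∀ (t : T) (n : II) (q : T), q ∈ Φ → s t n ≤ q → (∀ p ∈ Φ, t ≠ p ⊓ q) →
      |dv s g t - dv s g (s t n)| < ε ∧ (∀ z, mem n z → |dS s g t z - dv s g (s t n)| < ε) ∧
        ∀ z, ¬ mem n z → |dS s g t z| < ε := by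
    intro t n q hq hnq hne
    have key : ∀ p ∈ Φ, t ≤ p → s t n ≤ p := by
      intro p hp htp
      have hw : t ≤ p ⊓ q := le_inf htp ((h.lt_s t n).le.trans hnq)
      rcases h.tree (p ⊓ q) (s t n) q inf_le_right hnq with h3 | h3
      · rcases h.le_s _ _ _ h3 with h4 | h4
        · exact absurd (le_antisymm hw h4) (hne p hp)
        · rw [← h4]
          exact inf_le_left
      · exact h3.trans inf_le_left
    refine ⟨?_, ?_, ?_⟩
    · have h2 := hΦ (vv s t) (vv s (s t n)) (fun p hp => by
        rw [Bool.eq_iff_iff, vv_apply, vv_apply]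
        exact ⟨key p hp, fun h3 => (h.lt_s t n).le.trans h3⟩)
      have h3 : dv s g t - dv s g (s t n) = g (vv s t) - g (vv s (s t n)) := by
        unfold dv
        ring
      rw [h3]
      exact h2
    · intro z hz
      have h2 := hΦ (ss s t z) (vv s (s t n)) (fun p hp => by
        rw [Bool.eq_iff_iff, vv_apply, ss_apply]
        constructor
        · rintro ⟨n', -, hn'⟩
          exact key p hp ((h.lt_s t n').le.trans hn')
        · intro h3
          exact ⟨n, hz, h3⟩)
      have h3 : dS s g t z - dv s g (s t n) = g (ss s t z) - g (vv s (s t n)) := by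
        unfold dv dS
        ring
      rw [h3]
      exact h2
    · intro z hz
      have h2 := hΦ (ss s t z) (z0 s) (fun p hp => by
        rw [hz0, Bool.eq_false_iff]
        intro h3
        obtain ⟨n', hn'z, hn'⟩ := (ss_apply s t z p).1 h3
        have h4 := key p hp ((h.lt_s t n').le.trans hn')
        have h5 := h.s_inj t n n' p h4 hn'
        rw [h5] at hz
        exact hz hn'z)
      exact h2
  refine Set.Finite.subset (Set.Finite.biUnion (Φ ×ˢ Φ).finite_toSet
    (t := fun pq => {x : T × II | x.1 = pq.1 ⊓ pq.2 ∧ s x.1 x.2 ≤ pq.2}) (fun pq _ => ?_)) ?_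
  · apply Set.Subsingleton.finite
    rintro ⟨t, n⟩ ⟨ht, hn⟩ ⟨t', n'⟩ ⟨ht', hn'⟩
    simp only at ht hn ht' hn'
    subst ht
    subst ht'
    rw [h.s_inj _ n n' _ hn hn']
  · rintro ⟨t, n⟩ ⟨hBg, hEv, b, hb, hBgb⟩
    simp only at hBg hEv hb
    obtain ⟨q, hq, hbq⟩ := F1 b hBgb
    have hnq : s t n ≤ q := hb.trans hbq
    have hex : ∃ p ∈ Φ, t = p ⊓ q := by
      by_contra hcon
      push Not at hcon
      obtain ⟨f1, f2, f3⟩ := F2 t n q hq hnq hcon
      have hdv : |dv s g (s t n)| < d' := by
        rcases hEv with h3 | ⟨z, hz⟩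
        · exact h3
        · exfalso
          by_cases hm : mem n z
          · rw [if_pos hm] at hz
            have := f2 z hm
            linarith
          · rw [if_neg hm, sub_zero] at hz
            have := f3 z hm
            linarith
      rcases hBg with h3 | ⟨z, hz⟩
      · have h4 := abs_sub_abs_le_abs_sub (dv s g t) (dv s g (s t n))
        linarith
      · by_cases hm : mem n z
        · have h4 := abs_sub_abs_le_abs_sub (dS s g t z) (dv s g (s t n))
          have := f2 z hm
          linarith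
        · have := f3 z hm
          linarith
    obtain ⟨p, hp, htp⟩ := hex
    simp only [Set.mem_iUnion]
    refine ⟨(p, q), ?_, htp, hnq⟩
    simp [hp, hq]

end Pool.Agent.Helper358.WB
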