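import Pool.Agent.Helper358.WB.Defs

set_option autoImplicit false

namespace Pool.Agent.Helper358.WB
open Set Topology


theorem ZZ_open_union {X : Type} (t : TopologicalSpace X) {A B : Set X} (hA : IsOpen[t] A)
    (hB : IsOpen[t] B) : IsOpen[t] (A ∪ B) := hA.union hB

theorem ZZ_open_inter {X : Type} (t : TopologicalSpace X) {A B : Set X} (hA : IsOpen[t] A)
    (hB : IsOpen[t] B) : IsOpen[t] (A ∩ B) := hA.inter hB

theorem ZZ_open_iUnion {X : Type} (t : TopologicalSpace X) {ι : Sort*} {A : ι → Set X}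
    (hA : ∀ i, IsOpen[t] (A i)) : IsOpen[t] (⋃ i, A i) := isOpen_iUnion hA

theorem ZZ_open_l {K : Type} [TopologicalSpace K] (l : C(K, ℝ) →L[ℝ] ℝ) (U : Set ℝ)
    (hU : IsOpen U) : IsOpen[tw K] {g : C(K, ℝ) | l g ∈ U} := by
  rw [isOpen_induced_iff]
  exact ⟨{x | x l ∈ U}, hU.preimage (continuous_apply l), rfl⟩

theorem ZZ_open_Bg {T : Type} [SemilatticeInf T] {s : T → II → T} (d : ℝ) (t : T) :
    IsOpen[tw (KK s)] {g : C(KK s, ℝ) | Bg s d g t} := by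
  have hU : IsOpen {x : ℝ | d < |x|} := isOpen_lt continuous_const continuous_abs
  have h1 := ZZ_open_l (K := KK s)
    (ContinuousMap.evalCLM ℝ (vv s t) - ContinuousMap.evalCLM ℝ (z0 s)) _ hU
  have h2 : ∀ z : OM, IsOpen[tw (KK s)] {g : C(KK s, ℝ) |
      (ContinuousMap.evalCLM ℝ (ss s t z) - ContinuousMap.evalCLM ℝ (z0 s) :
        C(KK s, ℝ) →L[ℝ] ℝ) g ∈ {x : ℝ | d < |x|}} := fun z => ZZ_open_l (K := KK s) _ _ hU
  have h3 := ZZ_open_union (tw (KK s)) h1 (ZZ_open_iUnion (tw (KK s)) h2)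
  have e : {g : C(KK s, ℝ) | Bg s d g t} = {g : C(KK s, ℝ) |
      (ContinuousMap.evalCLM ℝ (vv s t) - ContinuousMap.evalCLM ℝ (z0 s) :
        C(KK s, ℝ) →L[ℝ] ℝ) g ∈ {x : ℝ | d < |x|}} ∪ ⋃ z : OM, {g : C(KK s, ℝ) |
      (ContinuousMap.evalCLM ℝ (ss s t z) - ContinuousMap.evalCLM ℝ (z0 s) :
        C(KK s, ℝ) →L[ℝ] ℝ) g ∈ {x : ℝ | d < |x|}} := by
    ext g
    rw [Set.mem_union, Set.mem_iUnion]
    exact Iff.rfl
  rw [e]
  exact h3

theorem ZZ_open_Ev {T : Type} [SemilatticeInf T] {s : T → II → T} (d' θ : ℝ) (t : T) (n : II) :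
    IsOpen[tw (KK s)] {g : C(KK s, ℝ) | Ev s d' θ g t n} := by
  classical
  have hU : IsOpen {x : ℝ | |x| < d'} := isOpen_lt continuous_abs continuous_const
  have hU' : IsOpen {x : ℝ | θ < |x|} := isOpen_lt continuous_const continuous_abs
  have h1 := ZZ_open_l (K := KK s)
    (ContinuousMap.evalCLM ℝ (vv s (s t n)) - ContinuousMap.evalCLM ℝ (z0 s)) _ hU
  have h2 : ∀ z : OM, IsOpen[tw (KK s)] {g : C(KK s, ℝ) |
      θ < |dS s g t z - (if mem n z then dv s g (s t n) else 0)|} := by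
    intro z
    by_cases hz : mem n z
    · have h := ZZ_open_l (K := KK s)
        ((ContinuousMap.evalCLM ℝ (ss s t z) - ContinuousMap.evalCLM ℝ (z0 s)) -
          (ContinuousMap.evalCLM ℝ (vv s (s t n)) - ContinuousMap.evalCLM ℝ (z0 s))) _ hU'
      simp only [if_pos hz]
      exact h
    · have h := ZZ_open_l (K := KK s)
        (ContinuousMap.evalCLM ℝ (ss s t z) - ContinuousMap.evalCLM ℝ (z0 s)) _ hU'
      simp only [if_neg hz, sub_zero]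
      exact h
  have h3 := ZZ_open_union (tw (KK s)) h1 (ZZ_open_iUnion (tw (KK s)) h2)
  have e : {g : C(KK s, ℝ) | Ev s d' θ g t n} = {g : C(KK s, ℝ) |
      (ContinuousMap.evalCLM ℝ (vv s (s t n)) - ContinuousMap.evalCLM ℝ (z0 s) :
        C(KK s, ℝ) →L[ℝ] ℝ) g ∈ {x : ℝ | |x| < d'}} ∪ ⋃ z : OM, {g : C(KK s, ℝ) |
      θ < |dS s g t z - (if mem n z then dv s g (s t n) else 0)|} := by
    ext g
    rw [Set.mem_union, Set.mem_iUnion]
    exact Iff.rfl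
  rw [e]
  exact h3

theorem ZZ_open {T : Type} [SemilatticeInf T] {s : T → II → T} (d' d'' : ℝ) (p : T × II) :
    IsOpen[tw (KK s)] {g : C(KK s, ℝ) | p ∈ ZZ s d' d'' g} := by
  have h3 : IsOpen[tw (KK s)] (⋃ b : {b : T // s p.1 p.2 ≤ b},
      {g : C(KK s, ℝ) | Bg s d'' g b.1}) :=
    ZZ_open_iUnion (tw (KK s)) fun b => ZZ_open_Bg d'' b.1
  have h := ZZ_open_inter (tw (KK s)) (ZZ_open_Bg (s := s) d'' p.1)
    (ZZ_open_inter (tw (KK s)) (ZZ_open_Ev (s := s) d' (d' / 10) p.1 p.2) h3)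
  have e : {g : C(KK s, ℝ) | p ∈ ZZ s d' d'' g} = {g : C(KK s, ℝ) | Bg s d'' g p.1} ∩
      ({g : C(KK s, ℝ) | Ev s d' (d' / 10) g p.1 p.2} ∩ ⋃ b : {b : T // s p.1 p.2 ≤ b},
        {g : C(KK s, ℝ) | Bg s d'' g b.1}) := by
    ext g
    rw [Set.mem_inter_iff, Set.mem_inter_iff, Set.mem_iUnion]
    constructor
    · rintro ⟨h1, h2, b, hb, hb2⟩
      exact ⟨h1, h2, ⟨b, hb⟩, hb2⟩
    · rintro ⟨h1, h2, ⟨b, hb⟩, hb2⟩
      exact ⟨h1, h2, b, hb, hb2⟩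
  rw [e]
  exact h

end Pool.Agent.Helper358.WB
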