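import Pool.Agent.Helper358.WB.Defs

set_option autoImplicit false

namespace Pool.Agent.Helper358.WB
open Set Topology


theorem continuous_ss {T : Type} [SemilatticeInf T] {s : T → II → T} (h : IsTree s) (t : T) :
    Continuous (ss s t) := by
  classical
  refine Continuous.subtype_mk (continuous_pi fun v => ?_) _
  by_cases hex : ∃ n, s t n ≤ v
  · obtain ⟨n, hn⟩ := hex
    have h1 : Continuous (fun a : Fin (2 * n.1 + 2) => decide (a ∈ n.2.1)) :=
      continuous_of_discreteTopology
    have h2 : Continuous (fun z : OM => z n.1) := continuous_apply n.1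
    refine (h1.comp h2).congr fun z => ?_
    simp only [Function.comp_apply]
    rw [decide_eq_decide]
    constructor
    · exact fun hm => ⟨n, hm, hn⟩
    · rintro ⟨n', hm, hn'⟩
      obtain rfl := h.s_inj t n n' v hn hn'
      exact hm
  · refine (continuous_const (y := false)).congr fun z => ?_
    symm
    rw [decide_eq_false_iff_not]
    rintro ⟨n', _, hn'⟩
    exact hex ⟨n', hn'⟩

end Pool.Agent.Helper358.WB
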