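import Pool.Agent.Helper358.WB.Defs

set_option autoImplicit false

namespace Pool.Agent.Helper358.WB
open Set Topology


theorem dodge (F : Finset OM) (N : Finset II) : ∃ n : II, n ∉ N ∧ ∀ z ∈ F, ¬ mem n z := by
  classical
  obtain ⟨j, hj⟩ : ∃ j : ℕ, j = F.card + 1 + N.sup (fun n => n.1) := ⟨_, rfl⟩
  have hB : (F.image (fun z : OM => z j)).card ≤ F.card := Finset.card_image_le
  have hc : j + 1 ≤ ((F.image (fun z : OM => z j))ᶜ).card := by
    rw [Finset.card_compl, Fintype.card_fin]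
    omega
  obtain ⟨A, hA, hAc⟩ := Finset.exists_subset_card_eq hc
  refine ⟨⟨j, A, hAc⟩, ?_, ?_⟩
  · intro hn
    have h1 : (⟨j, A, hAc⟩ : II).1 ≤ N.sup (fun n => n.1) := Finset.le_sup (f := fun n : II => n.1) hn
    have h2 : j ≤ N.sup (fun n => n.1) := h1
    omega
  · intro z hz hm
    have h1 : z j ∈ A := hm
    have h2 := hA h1
    rw [Finset.mem_compl] at h2
    exact h2 (Finset.mem_image_of_mem _ hz)

end Pool.Agent.Helper358.WB
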