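import Pool.Agent.Helper358.WB.Defs

set_option autoImplicit false

namespace Pool.Agent.Helper358.WB
open Set Topology


theorem exists_det_loc13471 {T : Type} [SemilatticeInf T] {s : T → II → T}
    (g : C(KK s, ℝ)) (ε : ℝ) (hε : 0 < ε) (k : KK s) :
    ∃ Φ : Finset T, ∀ k' : KK s, (∀ p ∈ Φ, k'.1 p = k.1 p) → |g k' - g k| < ε := by
  have h1 : {k' : KK s | |g k' - g k| < ε} ∈ 𝓝 k := by
    have hopen : IsOpen {k' : KK s | |g k' - g k| < ε} :=
      isOpen_lt ((g.continuous.sub continuous_const).abs) continuous_const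
    exact hopen.mem_nhds (by simpa using hε)
  rw [nhds_subtype_eq_comap, Filter.mem_comap] at h1
  obtain ⟨U, hU, hUs⟩ := h1
  rw [nhds_pi, Filter.mem_pi] at hU
  obtain ⟨I, hI, t, ht, htU⟩ := hU
  refine ⟨hI.toFinset, fun k' hk' => ?_⟩
  have h2 : k' ∈ Subtype.val ⁻¹' U := by
    apply htU
    intro i hi
    rw [hk' i (hI.mem_toFinset.mpr hi)]
    exact mem_of_mem_nhds (ht i)
  exact hUs h2

theorem exists_det {T : Type} [SemilatticeInf T] {s : T → II → T} [CompactSpace (KK s)]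
    (g : C(KK s, ℝ)) (ε : ℝ) (hε : 0 < ε) : ∃ Φ : Finset T, Det s ε g Φ := by
  classical
  choose Φ hΦ using exists_det_loc13471 g (ε / 2) (by linarith)
  have hO : ∀ k : KK s, {k' : KK s | ∀ p ∈ Φ k, k'.1 p = k.1 p} ∈ 𝓝 k := by
    intro k
    have hopen : IsOpen {k' : KK s | ∀ p ∈ Φ k, k'.1 p = k.1 p} := by
      have h1 : {k' : KK s | ∀ p ∈ Φ k, k'.1 p = k.1 p} = ⋂ p ∈ Φ k, {k' : KK s | k'.1 p = k.1 p} := by
        ext k'
        simp
      rw [h1]
      apply isOpen_biInter_finset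
      intro p _
      have h2 : Continuous (fun k' : KK s => k'.1 p) := (continuous_apply p).comp continuous_subtype_val
      exact (isOpen_discrete {k.1 p}).preimage h2
    exact hopen.mem_nhds (fun _ _ => rfl)
  obtain ⟨t, ht⟩ := CompactSpace.elim_nhds_subcover _ hO
  refine ⟨t.biUnion Φ, fun k k' hkk => ?_⟩
  have hk : k ∈ ⋃ x ∈ t, {k' : KK s | ∀ p ∈ Φ x, k'.1 p = x.1 p} := by
    rw [ht]
    trivial
  simp only [Set.mem_iUnion] at hk
  obtain ⟨x, hx, hkx⟩ := hk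
  have h1 := hΦ x k hkx
  have h2 := hΦ x k' (by
    intro p hp
    rw [← hkk p (Finset.mem_biUnion.mpr ⟨x, hx, hp⟩)]
    exact hkx p hp)
  rw [abs_lt] at h1 h2 ⊢
  constructor <;> linarith [h1.1, h1.2, h2.1, h2.2]

end Pool.Agent.Helper358.WB
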