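import Pool.Agent.Helper358.WB.Defs

set_option autoImplicit false

namespace Pool.Agent.Helper358.WB
open Set Topology


open MeasureTheory in
/-- the uniform measures -/
noncomputable def muj (j : ℕ) : Measure (Fin (2 * j + 2)) :=
  (PMF.uniformOfFintype (Fin (2 * j + 2))).toMeasure

open MeasureTheory in
instance (j : ℕ) : IsProbabilityMeasure (muj j) := by
  unfold muj; infer_instance

open MeasureTheory in
/-- the product measure -/
noncomputable def lam : Measure OM := Measure.infinitePi muj

open MeasureTheory in
instance : IsProbabilityMeasure lam := by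
  unfold lam; infer_instance

open MeasureTheory in
theorem lam_half (n : II) : lam.real {y | mem n y} = 1 / 2 := by
  have h1 : MeasurePreserving (fun y : OM => y n.1) lam (muj n.1) :=
    measurePreserving_eval_infinitePi muj n.1
  have h2 : MeasurableSet ((n.2.1 : Finset (Fin (2 * n.1 + 2))) : Set (Fin (2 * n.1 + 2))) :=
    MeasurableSet.of_discrete
  have h3 : lam {y | mem n y} = muj n.1 (n.2.1 : Set (Fin (2 * n.1 + 2))) := by
    rw [← h1.measure_preimage h2.nullMeasurableSet]
    rfl
  rw [Measure.real, h3, muj, PMF.toMeasure_uniformOfFintype_apply _ h2]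
  have h4 : Fintype.card ((n.2.1 : Set (Fin (2 * n.1 + 2)))) = n.1 + 1 := by
    have h5 : (n.2.1).card = n.1 + 1 := n.2.2
    have h6 : Fintype.card ↥(n.2.1) = n.1 + 1 := (Fintype.card_coe n.2.1).trans h5
    exact (Fintype.card_congr (Equiv.refl _)).trans h6
  rw [h4, Fintype.card_fin, ENNReal.toReal_div]
  simp only [ENNReal.toReal_natCast]
  push_cast
  have : (n.1 : ℝ) + 1 ≠ 0 := by positivity
  field_simp

open MeasureTheory in
theorem exists_functional (z : OM) (J : Finset ℕ) : ∃ l : C(OM, ℝ) →L[ℝ] ℝ,
    (∀ (φ : C(OM, ℝ)) (c ε : ℝ), (∀ y : OM, (∀ j ∈ J, y j = z j) → |φ y - c| ≤ ε) →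
      |l φ - c| ≤ ε) ∧
    (∀ (φ : C(OM, ℝ)) (n : II) (c θ : ℝ), n.1 ∉ J →
      (∀ y : OM, (mem n y → |φ y - c| ≤ θ) ∧ (¬ mem n y → |φ y| ≤ θ)) → |l φ - c / 2| ≤ θ) := by
  classical
  let ov : OM → OM := fun y j => if j ∈ J then z j else y j
  have hov : Continuous ov := by
    refine continuous_pi fun j => ?_
    by_cases hj : j ∈ J
    · simp only [ov, if_pos hj]; exact continuous_const
    · simp only [ov, if_neg hj]; exact continuous_apply j
  have hcont : ∀ φ : C(OM, ℝ), Continuous fun y => φ (ov y) := fun φ => φ.continuous.comp hov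
  have hint : ∀ φ : C(OM, ℝ), Integrable (fun y => φ (ov y)) lam := by
    intro φ
    refine Integrable.of_bound (hcont φ).aestronglyMeasurable ‖φ‖ ?_
    exact Filter.Eventually.of_forall fun y => φ.norm_coe_le_norm _
  let l0 : C(OM, ℝ) →ₗ[ℝ] ℝ :=
    { toFun := fun φ => ∫ y, φ (ov y) ∂lam
      map_add' := fun φ ψ => by
        simp only [ContinuousMap.add_apply]
        exact integral_add (hint φ) (hint ψ)
      map_smul' := fun a φ => by
        simp only [ContinuousMap.smul_apply, smul_eq_mul, RingHom.id_apply]
        exact integral_const_mul a _ }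
  let l : C(OM, ℝ) →L[ℝ] ℝ := l0.mkContinuous 1 (by
    intro φ
    have := norm_integral_le_of_norm_le_const (μ := lam) (f := fun y => φ (ov y)) (C := ‖φ‖)
      (Filter.Eventually.of_forall fun y => φ.norm_coe_le_norm _)
    rw [probReal_univ, mul_one] at this
    rw [one_mul]
    exact this)
  have hl : ∀ φ, l φ = ∫ y, φ (ov y) ∂lam := fun φ => rfl
  refine ⟨l, ?_, ?_⟩
  · intro φ c ε h
    have h1 : l φ - c = ∫ y, (φ (ov y) - c) ∂lam := by
      rw [integral_sub (hint φ) (integrable_const c), hl, integral_const, probReal_univ, one_smul]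
    rw [h1, ← Real.norm_eq_abs]
    have h2 := norm_integral_le_of_norm_le_const (μ := lam) (f := fun y => φ (ov y) - c) (C := ε)
      (Filter.Eventually.of_forall fun y => by
        rw [Real.norm_eq_abs]
        refine h (ov y) fun j hj => ?_
        simp [ov, hj])
    rwa [probReal_univ, mul_one] at h2
  · intro φ n c θ hn h
    have hm : ∀ y, mem n (ov y) ↔ mem n y := by
      intro y
      unfold mem
      simp [ov, hn]
    have hms : MeasurableSet {y : OM | mem n y} := by
      have h2 : MeasurableSet ((n.2.1 : Finset (Fin (2 * n.1 + 2))) : Set (Fin (2 * n.1 + 2))) :=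
        MeasurableSet.of_discrete
      exact (measurable_pi_apply n.1) h2
    have hI : Integrable (fun y => Set.indicator {y : OM | mem n y} (fun _ => c) y) lam :=
      (integrable_const c).indicator hms
    have h1 : l φ - c / 2 =
        ∫ y, (φ (ov y) - Set.indicator {y : OM | mem n y} (fun _ => c) y) ∂lam := by
      rw [integral_sub (hint φ) hI, hl, integral_indicator hms, setIntegral_const, lam_half,
        smul_eq_mul]
      ring
    rw [h1, ← Real.norm_eq_abs]
    have h2 := norm_integral_le_of_norm_le_const (μ := lam)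
      (f := fun y => φ (ov y) - Set.indicator {y : OM | mem n y} (fun _ => c) y) (C := θ)
      (Filter.Eventually.of_forall fun y => by
        rw [Real.norm_eq_abs]
        by_cases hy : mem n y
        · rw [Set.indicator_of_mem (show y ∈ {y : OM | mem n y} from hy)]
          exact (h (ov y)).1 ((hm y).mpr hy)
        · rw [Set.indicator_of_notMem (show y ∉ {y : OM | mem n y} from hy), sub_zero]
          exact (h (ov y)).2 fun h' => hy ((hm y).mp h'))
    rwa [probReal_univ, mul_one] at h2

end Pool.Agent.Helper358.WB
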