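import Pool.Agent.Helper358.WB.Defs

set_option autoImplicit false

namespace Pool.Agent.Helper358.WB
open Set Topology


theorem exists_top_vv {T : Type} [SemilatticeInf T] {s : T → II → T} (g : C(KK s, ℝ)) (ε : ℝ)
    (Φ : Finset T) (hΦ : Det s ε g Φ) (t m : T) (hm : ∀ p ∈ Φ, (t ≤ p ↔ m ≤ p)) :
    |dv s g t - dv s g m| < ε := by
  have h1 := hΦ (vv s t) (vv s m) (fun p hp => by
    rw [Bool.eq_iff_iff, vv_apply, vv_apply]; exact hm p hp)
  unfold dv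
  have e : g (vv s t) - g (z0 s) - (g (vv s m) - g (z0 s)) = g (vv s t) - g (vv s m) := by ring
  rw [e]
  exact h1

theorem exists_top_vz {T : Type} [SemilatticeInf T] {s : T → II → T} (g : C(KK s, ℝ)) (ε : ℝ)
    (Φ : Finset T) (hΦ : Det s ε g Φ) (t : T) (hm : ∀ p ∈ Φ, ¬ t ≤ p) :
    |dv s g t| < ε := by
  exact hΦ (vv s t) (z0 s) (fun p hp => by
    rw [Bool.eq_iff_iff, vv_apply, z0_apply]
    constructor
    · intro h; exact absurd h (hm p hp)
    · intro h; exact absurd h (by simp))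

theorem exists_top_one {T : Type} [SemilatticeInf T] {s : T → II → T} (h : IsTree s)
    (g : C(KK s, ℝ)) (d' d'' ε : ℝ) (he1 : ε ≤ d') (he2 : ε ≤ d'' - d') (h1 : d' < d'')
    (hg : Gen s d' d'' g) (Φ : Finset T) (hΦ : Det s ε g Φ) (t : T) (ht : d'' < |dv s g t|) :
    ∃ m, (∃ p ∈ Φ, ∃ q ∈ Φ, m = p ⊓ q) ∧ t ≤ m ∧ d'' < |dv s g m| := by
  classical
  obtain ⟨p0, hp0, htp0⟩ : ∃ p ∈ Φ, t ≤ p := by
    by_contra hc
    push Not at hc
    have := exists_top_vz g ε Φ hΦ t hc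
    linarith
  have hne : ((Φ.filter (fun q => t ≤ q)).image (fun q => p0 ⊓ q)).Nonempty :=
    ⟨p0 ⊓ p0, Finset.mem_image_of_mem _ (Finset.mem_filter.2 ⟨hp0, htp0⟩)⟩
  obtain ⟨m, hm⟩ := Finset.exists_minimal hne
  obtain ⟨q0, hq0, hmq⟩ := Finset.mem_image.1 hm.1
  rw [Finset.mem_filter] at hq0
  have htm : t ≤ m := by rw [← hmq]; exact le_inf htp0 hq0.2
  have hmp0 : m ≤ p0 := by rw [← hmq]; exact inf_le_left
  have hmle : ∀ q ∈ Φ, t ≤ q → m ≤ q := by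
    intro q hq htq
    have hin : p0 ⊓ q ∈ (Φ.filter (fun q => t ≤ q)).image (fun q => p0 ⊓ q) :=
      Finset.mem_image_of_mem _ (Finset.mem_filter.2 ⟨hq, htq⟩)
    rcases h.tree (p0 ⊓ q) m p0 inf_le_left hmp0 with h2 | h2
    · exact le_trans (hm.2 hin h2) inf_le_right
    · exact le_trans h2 inf_le_right
  refine ⟨m, ⟨p0, hp0, q0, hq0.1, hmq.symm⟩, htm, ?_⟩
  have h3 := exists_top_vv g ε Φ hΦ t m (fun p hp => ⟨hmle p hp, fun h4 => le_trans htm h4⟩)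
  have h4 : |dv s g t| - |dv s g m| ≤ |dv s g t - dv s g m| := abs_sub_abs_le_abs_sub _ _
  rcases hg m with h5 | h5
  · linarith
  · exact h5

theorem exists_top_two {T : Type} [SemilatticeInf T] {s : T → II → T} (h : IsTree s)
    (g : C(KK s, ℝ)) (d' d'' ε : ℝ) (he1 : ε ≤ d') (he2 : ε ≤ d'' - d') (h1 : d' < d'')
    (hg : Gen s d' d'' g) (Φ : Finset T) (hΦ : Det s ε g Φ) (t : T) (ht : Bg s d'' g t) :
    ∃ m, (∃ p ∈ Φ, ∃ q ∈ Φ, m = p ⊓ q) ∧ t ≤ m ∧ Bg s d'' g m := by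
  rcases ht with ht | ⟨z, hz⟩
  · obtain ⟨m, hm1, hm2, hm3⟩ := exists_top_one h g d' d'' ε he1 he2 h1 hg Φ hΦ t ht
    exact ⟨m, hm1, hm2, Or.inl hm3⟩
  · obtain ⟨q, hq, n, hn, hnq⟩ : ∃ q ∈ Φ, ∃ n, mem n z ∧ s t n ≤ q := by
      by_contra hc
      push Not at hc
      have h2 : |dS s g t z| < ε := hΦ (ss s t z) (z0 s) (fun p hp => by
        rw [Bool.eq_iff_iff, ss_apply, z0_apply]
        constructor
        · rintro ⟨n, h3, h4⟩; exact absurd h4 (hc p hp n h3)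
        · intro h; exact absurd h (by simp))
      linarith
    by_cases hex : ∃ p ∈ Φ, t = p ⊓ q
    · obtain ⟨p, hp, hpt⟩ := hex
      exact ⟨t, ⟨p, hp, q, hq, hpt⟩, le_rfl, Or.inr ⟨z, hz⟩⟩
    · push Not at hex
      have htn : t ≤ s t n := (h.lt_s t n).le
      have h2 : |g (ss s t z) - g (vv s (s t n))| < ε := hΦ (ss s t z) (vv s (s t n)) (fun p hp => by
        rw [Bool.eq_iff_iff, ss_apply, vv_apply]
        constructor
        · rintro ⟨n', _, h4⟩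
          have htp : t ≤ p := le_trans (h.lt_s t n').le h4
          have htw : t ≤ p ⊓ q := le_inf htp (le_trans htn hnq)
          rcases h.tree (p ⊓ q) (s t n) q inf_le_right hnq with h5 | h5
          · rcases h.le_s (p ⊓ q) t n h5 with h6 | h6
            · exact absurd (le_antisymm htw h6) (hex p hp)
            · rw [← h6]; exact inf_le_left
          · exact le_trans h5 inf_le_left
        · intro h4
          exact ⟨n, hn, h4⟩)
      have h3 : |dS s g t z| - |dv s g (s t n)| ≤ |dS s g t z - dv s g (s t n)| :=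
        abs_sub_abs_le_abs_sub _ _
      have e : dS s g t z - dv s g (s t n) = g (ss s t z) - g (vv s (s t n)) := by
        unfold dS dv; ring
      rw [e] at h3
      have h4 : d'' < |dv s g (s t n)| := by
        rcases hg (s t n) with h5 | h5
        · linarith
        · exact h5
      obtain ⟨m, hm1, hm2, hm3⟩ := exists_top_one h g d' d'' ε he1 he2 h1 hg Φ hΦ (s t n) h4
      exact ⟨m, hm1, le_trans htn hm2, Or.inl hm3⟩

theorem exists_top {T : Type} [SemilatticeInf T] {s : T → II → T} (h : IsTree s)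
    (hdet : ∀ (g : C(KK s, ℝ)) (ε : ℝ), 0 < ε → ∃ Φ : Finset T, Det s ε g Φ)
    (g : C(KK s, ℝ)) (d' d'' : ℝ) (h0 : 0 < d') (h1 : d' < d'') (hg : Gen s d' d'' g) :
    ∃ c : Finset T, Top s d'' c g := by
  classical
  obtain ⟨ε, hε⟩ : ∃ ε, ε = min d' (d'' - d') := ⟨_, rfl⟩
  have he0 : 0 < ε := by rw [hε]; exact lt_min h0 (by linarith)
  have he1 : ε ≤ d' := by rw [hε]; exact min_le_left _ _
  have he2 : ε ≤ d'' - d' := by rw [hε]; exact min_le_right _ _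
  obtain ⟨Φ, hΦ⟩ := hdet g ε he0
  obtain ⟨S, hS⟩ : ∃ S : Finset T, ∀ m, m ∈ S ↔ (∃ p ∈ Φ, ∃ q ∈ Φ, m = p ⊓ q) ∧ Bg s d'' g m := by
    refine ⟨((Φ ×ˢ Φ).image (fun x => x.1 ⊓ x.2)).filter (fun m => Bg s d'' g m), fun m => ?_⟩
    rw [Finset.mem_filter, Finset.mem_image]
    constructor
    · rintro ⟨⟨x, hx, rfl⟩, hB⟩
      rw [Finset.mem_product] at hx
      exact ⟨⟨x.1, hx.1, x.2, hx.2, rfl⟩, hB⟩
    · rintro ⟨⟨p, hp, q, hq, rfl⟩, hB⟩
      exact ⟨⟨(p, q), Finset.mem_product.2 ⟨hp, hq⟩, rfl⟩, hB⟩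
  refine ⟨S.filter (fun m => ∀ m' ∈ S, m ≤ m' → m' ≤ m), ?_, ?_, ?_⟩
  · intro a ha
    rw [Finset.mem_filter] at ha
    exact ((hS a).1 ha.1).2
  · intro a ha
    obtain ⟨m, hm1, hm2, hm3⟩ := exists_top_two h g d' d'' ε he1 he2 h1 hg Φ hΦ a ha
    have hmS : m ∈ S := (hS m).2 ⟨hm1, hm3⟩
    obtain ⟨b, hb1, hb2⟩ := Finset.exists_le_maximal S hmS
    exact ⟨b, Finset.mem_filter.2 ⟨hb2.1, fun m' hm' h5 => hb2.2 hm' h5⟩, le_trans hm2 hb1⟩
  · intro a ha b hb hab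
    rw [Finset.mem_filter] at ha hb
    exact le_antisymm hab (ha.2 b hb.1 hab)

end Pool.Agent.Helper358.WB
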