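import Pool.Agent.Helper358.WB.Defs

set_option autoImplicit false

namespace Pool.Agent.Helper358.WB
open Set Topology


theorem isClosed_CE : IsClosed {e : II → Bool | (∀ n m, n ≠ m → e n = false ∨ e m = false) ∨
    ∃ z : OM, ∀ n, e n = true ↔ mem n z} := by
  have hA : IsClosed {e : II → Bool | ∀ n m, n ≠ m → e n = false ∨ e m = false} := by
    simp only [Set.setOf_forall]
    refine isClosed_iInter fun n => isClosed_iInter fun m => isClosed_iInter fun _ => ?_
    exact (isClosed_eq (continuous_apply n) continuous_const).union
      (isClosed_eq (continuous_apply m) continuous_const)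
  have hB : IsClosed {e : II → Bool | ∃ z : OM, ∀ n, e n = true ↔ mem n z} := by
    classical
    have hc : Continuous (fun z : OM => fun n : II => decide (mem n z)) := by
      refine continuous_pi fun n => ?_
      have h1 : Continuous (fun a : Fin (2 * n.1 + 2) =>
          @decide (a ∈ n.2.1) (Classical.propDecidable _)) :=
        continuous_of_discreteTopology
      exact h1.comp (continuous_apply (A := fun j : ℕ => Fin (2 * j + 2)) n.1)
    have hr := (isCompact_range hc).isClosed
    convert hr using 1
    ext e
    simp only [Set.mem_setOf_eq, Set.mem_range]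
    constructor
    · rintro ⟨z, hz⟩
      refine ⟨z, funext fun n => ?_⟩
      rw [Bool.eq_iff_iff, hz n]
      simp
    · rintro ⟨z, rfl⟩
      exact ⟨z, fun n => by simp⟩
  exact hA.union hB

theorem isClosed_K3 {T : Type} [SemilatticeInf T] {s : T → II → T} (h : IsTree s) :
    IsClosed {k : T → Bool | ∀ u v, k u = true → k v = true → k (u ⊓ v) = true ∨
      ∃ n m, s (u ⊓ v) n ≤ u ∧ s (u ⊓ v) m ≤ v ∧ k (s (u ⊓ v) n) = true ∧
        k (s (u ⊓ v) m) = true} := by
  simp only [Set.setOf_forall]
  refine isClosed_iInter fun u => isClosed_iInter fun v => ?_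
  by_cases hex : (∃ n, s (u ⊓ v) n ≤ u) ∧ (∃ m, s (u ⊓ v) m ≤ v)
  · obtain ⟨⟨n0, hn0⟩, ⟨m0, hm0⟩⟩ := hex
    have hcl : IsClosed {k : T → Bool | k u = false ∨ k v = false ∨ k (u ⊓ v) = true ∨
        (k (s (u ⊓ v) n0) = true ∧ k (s (u ⊓ v) m0) = true)} :=
      (isClosed_eq (continuous_apply _) continuous_const).union
        ((isClosed_eq (continuous_apply _) continuous_const).union
          ((isClosed_eq (continuous_apply _) continuous_const).union
            ((isClosed_eq (continuous_apply _) continuous_const).inter
              (isClosed_eq (continuous_apply _) continuous_const))))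
    convert hcl using 1
    ext k
    simp only [Set.mem_iInter, Set.mem_setOf_eq]
    constructor
    · intro hk
      by_cases hu : k u = true
      · by_cases hv : k v = true
        · rcases hk hu hv with h1 | ⟨n, m, hn, hm, hkn, hkm⟩
          · exact Or.inr (Or.inr (Or.inl h1))
          · have e1 := h.s_inj _ n n0 u hn hn0
            have e2 := h.s_inj _ m m0 v hm hm0
            subst e1 e2
            exact Or.inr (Or.inr (Or.inr ⟨hkn, hkm⟩))
        · exact Or.inr (Or.inl (by simpa using hv))
      · exact Or.inl (by simpa using hu)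
    · intro hk hu hv
      rcases hk with h1 | h1 | h1 | h1
      · simp [h1] at hu
      · simp [h1] at hv
      · exact Or.inl h1
      · exact Or.inr ⟨n0, m0, hn0, hm0, h1.1, h1.2⟩
  · have hcl : IsClosed {k : T → Bool | k u = false ∨ k v = false ∨ k (u ⊓ v) = true} :=
      (isClosed_eq (continuous_apply _) continuous_const).union
        ((isClosed_eq (continuous_apply _) continuous_const).union
          (isClosed_eq (continuous_apply _) continuous_const))
    convert hcl using 1
    ext k
    simp only [Set.mem_iInter, Set.mem_setOf_eq]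
    constructor
    · intro hk
      by_cases hu : k u = true
      · by_cases hv : k v = true
        · rcases hk hu hv with h1 | ⟨n, m, hn, hm, hkn, hkm⟩
          · exact Or.inr (Or.inr h1)
          · exact absurd ⟨⟨n, hn⟩, ⟨m, hm⟩⟩ hex
        · exact Or.inr (Or.inl (by simpa using hv))
      · exact Or.inl (by simpa using hu)
    · intro hk hu hv
      rcases hk with h1 | h1 | h1
      · simp [h1] at hu
      · simp [h1] at hv
      · exact Or.inl h1

theorem s_eq {T : Type} [SemilatticeInf T] {s : T → II → T} (h : IsTree s) {t t' : T} {n n' : II}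
    (e : s t n = s t' n') : t = t' := by
  have h1 : t ≤ t' := by
    have : t ≤ s t' n' := e ▸ (h.lt_s t n).le
    rcases h.le_s _ _ _ this with h2 | h2
    · exact h2
    · rw [← e] at h2
      exact absurd (h.lt_s t n) (by rw [← h2]; exact lt_irrefl t)
  have h1' : t' ≤ t := by
    have : t' ≤ s t n := e ▸ (h.lt_s t' n').le
    rcases h.le_s _ _ _ this with h2 | h2
    · exact h2
    · rw [e] at h2
      exact absurd (h.lt_s t' n') (by rw [← h2]; exact lt_irrefl t')
  exact le_antisymm h1 h1'

theorem isClosed_KS {T : Type} [SemilatticeInf T] {s : T → II → T} (h : IsTree s) :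
    IsClosed (KS s) := by
  have hK1 : IsClosed {k : T → Bool | ∀ u v, u ≤ v → k u = true → k v = true} := by
    simp only [Set.setOf_forall]
    refine isClosed_iInter fun u => isClosed_iInter fun v => isClosed_iInter fun _ => ?_
    have hcl : IsClosed {k : T → Bool | k u = false ∨ k v = true} :=
      (isClosed_eq (continuous_apply _) continuous_const).union
        (isClosed_eq (continuous_apply _) continuous_const)
    convert hcl using 1
    ext k
    simp only [Set.mem_iInter, Set.mem_setOf_eq]
    cases k u <;> simp
  have hK2 : IsClosed {k : T → Bool | ∀ t, k t = true ∨ (fun n => k (s t n)) ∈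
      {e : II → Bool | (∀ n m, n ≠ m → e n = false ∨ e m = false) ∨
        ∃ z : OM, ∀ n, e n = true ↔ mem n z}} := by
    rw [Set.setOf_forall]
    refine isClosed_iInter fun t => ?_
    refine (isClosed_eq (continuous_apply t) continuous_const).union ?_
    have hc : Continuous (fun k : T → Bool => fun n : II => k (s t n)) :=
      continuous_pi fun n => continuous_apply _
    exact isClosed_CE.preimage hc
  have hK3 := isClosed_K3 h
  convert (hK1.inter hK2).inter hK3 using 1
  ext k
  simp only [KS, Set.mem_inter_iff, Set.mem_setOf_eq]
  constructor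
  · rintro (hk | ⟨u, hu⟩ | ⟨t, z, hz⟩)
    · refine ⟨⟨fun u v _ hu => ?_, fun t => Or.inr (Or.inl fun n m _ => Or.inl (hk _))⟩,
        fun u v hu => ?_⟩
      · rw [hk] at hu; exact absurd hu (by simp)
      · rw [hk] at hu; exact absurd hu (by simp)
    · refine ⟨⟨fun a b hab ha => (hu b).2 (((hu a).1 ha).trans hab), fun t => ?_⟩,
        fun a b ha hb => Or.inl ((hu _).2 (le_inf ((hu a).1 ha) ((hu b).1 hb)))⟩
      by_cases hut : u ≤ t
      · exact Or.inl ((hu t).2 hut)
      · refine Or.inr (Or.inl fun n m hnm => ?_)
        by_contra hcon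
        push Not at hcon
        have h1 : u ≤ s t n := (hu _).1 (by simpa using hcon.1)
        have h2 : u ≤ s t m := (hu _).1 (by simpa using hcon.2)
        have e1 : u = s t n := (h.le_s _ _ _ h1).resolve_left hut
        have e2 : u = s t m := (h.le_s _ _ _ h2).resolve_left hut
        exact hnm (h.s_inj t n m u e1.ge e2.ge)
    · refine ⟨⟨fun a b hab ha => ?_, fun t' => ?_⟩, fun a b ha hb => ?_⟩
      · obtain ⟨n, hn, hle⟩ := (hz a).1 ha
        exact (hz b).2 ⟨n, hn, hle.trans hab⟩
      · by_cases hkt : k t' = true
        · exact Or.inl hkt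
        · right
          by_cases htt : t' = t
          · subst htt
            refine Or.inr ⟨z, fun n => ?_⟩
            rw [hz]
            constructor
            · rintro ⟨m, hm, hle⟩
              have := h.s_inj t' m n _ hle le_rfl
              exact this ▸ hm
            · intro hn
              exact ⟨n, hn, le_rfl⟩
          · left
            intro n m _
            left
            by_contra hcon
            have hcon' : k (s t' n) = true := by simpa using hcon
            obtain ⟨m', hm', hle⟩ := (hz _).1 hcon'
            rcases h.le_s _ _ _ hle with h2 | h2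
            · exact hkt ((hz _).2 ⟨m', hm', h2⟩)
            · exact htt (s_eq h h2).symm
      · obtain ⟨n, hn, hna⟩ := (hz a).1 ha
        obtain ⟨m, hm, hmb⟩ := (hz b).1 hb
        have hta : t ≤ a := (h.lt_s t n).le.trans hna
        have htb : t ≤ b := (h.lt_s t m).le.trans hmb
        rcases (le_inf hta htb).eq_or_lt with he | hlt
        · right
          rw [← he]
          exact ⟨n, m, hna, hmb, (hz _).2 ⟨n, hn, le_rfl⟩, (hz _).2 ⟨m, hm, le_rfl⟩⟩
        · obtain ⟨l, hl⟩ := h.ex_s _ _ hlt
          have e1 := h.s_inj t l n a (hl.trans inf_le_left) hna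
          subst e1
          exact Or.inl ((hz _).2 ⟨l, hn, hl⟩)
  · rintro ⟨⟨k1, k2⟩, k3⟩
    by_cases hall : ∀ v, k v = false
    · exact Or.inl hall
    right
    push Not at hall
    obtain ⟨u0, hu0⟩ := hall
    have hne : {u | k u = true}.Nonempty := ⟨u0, by simpa using hu0⟩
    set m := h.wf.min {u | k u = true} hne with hm
    have hkm : k m = true := h.wf.min_mem _ hne
    have hmin : ∀ v, k v = true → v ≤ m → v = m := by
      intro v hv hle
      rcases hle.eq_or_lt with he | hlt
      · exact he
      · exact absurd hlt (h.wf.not_lt_min {u | k u = true} hv)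
    by_cases hs : ∃ t n, m = s t n
    · obtain ⟨t, n, hmt⟩ := hs
      have hkt : ¬ k t = true := by
        intro hkt
        have := hmin t hkt (by rw [hmt]; exact (h.lt_s t n).le)
        have h2 := h.lt_s t n
        rw [← hmt, this] at h2
        exact lt_irrefl _ h2
      have key : ∀ v, k v = true ↔ ∃ n'', k (s t n'') = true ∧ s t n'' ≤ v := by
        intro v
        constructor
        · intro hv
          rcases k3 m v hkm hv with h1 | ⟨n', n'', hn', hn'', hk', hk''⟩
          · have e1 := hmin _ h1 inf_le_left
            refine ⟨n, hmt ▸ hkm, ?_⟩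
            rw [← hmt]
            exact inf_eq_left.1 e1
          · have e1 := hmin _ hk' hn'
            have e2 : m ⊓ v = t := s_eq h (e1.trans hmt)
            rw [e2] at hn'' hk''
            exact ⟨n'', hk'', hn''⟩
        · rintro ⟨n'', h1, h2⟩
          exact k1 _ _ h2 h1
      rcases (k2 t).resolve_left hkt with hc | ⟨z, hz⟩
      · left
        refine ⟨s t n, fun v => ?_⟩
        rw [key v]
        constructor
        · rintro ⟨n'', h1, h2⟩
          by_cases e : n'' = n
          · exact e ▸ h2
          · rcases hc _ _ e with h3 | h3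
            · exact absurd h1 (by simp [h3])
            · exact absurd hkm (by rw [hmt]; simp [h3])
        · intro h2
          exact ⟨n, hmt ▸ hkm, h2⟩
      · right
        refine ⟨t, z, fun v => ?_⟩
        rw [key v]
        constructor
        · rintro ⟨n'', h1, h2⟩
          exact ⟨n'', (hz n'').1 h1, h2⟩
        · rintro ⟨n'', h1, h2⟩
          exact ⟨n'', (hz n'').2 h1, h2⟩
    · left
      refine ⟨m, fun v => ⟨fun hv => ?_, fun hv => k1 _ _ hv hkm⟩⟩
      rcases k3 m v hkm hv with h1 | ⟨n', n'', hn', hn'', hk', hk''⟩
      · exact inf_eq_left.1 (hmin _ h1 inf_le_left)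
      · exact absurd ⟨_, _, (hmin _ hk' hn').symm⟩ hs

end Pool.Agent.Helper358.WB
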