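import Pool.Agent.Helper358.WB.Defs

set_option autoImplicit false

namespace Pool.Agent.Helper358.WB
open Set Topology


theorem isClosed_VV_aux {T : Type} [SemilatticeInf T] {s : T → II → T} (h : IsTree s) (t : T)
    (z : OM) (hk : ∀ u v, (ss s t z).1 u = true → (ss s t z).1 v = true →
      (ss s t z).1 (u ⊓ v) = true) : False := by
  let n0 : II := ⟨0, ⟨{z 0}, by simp⟩⟩
  have hcard : ({z 1, z 1 + 1} : Finset (Fin (2 * 1 + 2))).card = 1 + 1 := by
    rw [Finset.card_pair]
    intro hc
    have h1 : (1 : Fin (2 * 1 + 2)) = 0 := left_eq_add.1 hc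
    exact absurd h1 (by decide)
  let n1 : II := ⟨1, ⟨{z 1, z 1 + 1}, hcard⟩⟩
  have hm0 : mem n0 z := by
    change z 0 ∈ ({z 0} : Finset _)
    exact Finset.mem_singleton_self _
  have hm1 : mem n1 z := by
    change z 1 ∈ ({z 1, z 1 + 1} : Finset _)
    exact Finset.mem_insert_self _ _
  have h0 : (ss s t z).1 (s t n0) = true := (ss_apply s t z _).2 ⟨n0, hm0, le_rfl⟩
  have h1 : (ss s t z).1 (s t n1) = true := (ss_apply s t z _).2 ⟨n1, hm1, le_rfl⟩
  obtain ⟨l, _, hl⟩ := (ss_apply s t z _).1 (hk _ _ h0 h1)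
  have e0 : l = n0 := h.s_inj t l n0 _ (hl.trans inf_le_left) le_rfl
  have e1 : l = n1 := h.s_inj t l n1 _ (hl.trans inf_le_right) le_rfl
  have e2 : n0 = n1 := e0.symm.trans e1
  have e3 : (0 : ℕ) = 1 := congrArg Sigma.fst e2
  exact absurd e3 (by norm_num)

theorem isClosed_VV {T : Type} [SemilatticeInf T] {s : T → II → T} (h : IsTree s) :
    IsClosed {k : KK s | k = z0 s ∨ ∃ u, k = vv s u} := by
  have heq : {k : KK s | k = z0 s ∨ ∃ u, k = vv s u} =
      ⋂ (u : T), ⋂ (v : T), {k : KK s | k.1 u = true → k.1 v = true → k.1 (u ⊓ v) = true} := by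
    ext k
    simp only [Set.mem_ofPred_eq, Set.mem_iInter]
    constructor
    · rintro (rfl | ⟨w, rfl⟩) u v h1 h2
      · rw [z0_apply] at h1
        exact absurd h1 (by simp)
      · rw [vv_apply] at h1 h2 ⊢
        exact le_inf h1 h2
    · intro hk
      rcases KK_cases s k with hk' | hk' | ⟨t, z, rfl⟩
      · exact Or.inl hk'
      · exact Or.inr hk'
      · exact (isClosed_VV_aux h t z hk).elim
  rw [heq]
  apply isClosed_iInter
  intro u
  apply isClosed_iInter
  intro v
  have hc : Continuous (fun k : KK s => (k.1 u, k.1 v, k.1 (u ⊓ v))) := by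
    have h1 : ∀ w : T, Continuous (fun k : KK s => k.1 w) := fun w =>
      (continuous_apply w).comp continuous_subtype_val
    exact (h1 u).prodMk ((h1 v).prodMk (h1 (u ⊓ v)))
  exact (isClosed_discrete
    {b : Bool × Bool × Bool | b.1 = true → b.2.1 = true → b.2.2 = true}).preimage hc

end Pool.Agent.Helper358.WB
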