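import Pool.Agent.Helper358.WB.Defs

set_option autoImplicit false

namespace Pool.Agent.Helper358.WB
open Set Topology

theorem labels_claim {T : Type} [SemilatticeInf T] {s : T → II → T} (h : IsTree s)
    (c : Finset T) (p : T) :
    (∀ k : KK s, InG s c k → k.1 p = false) ∨
      ∃ p' : T, ((∃ a ∈ c, p' ≤ a) ∨ ∃ t n, (∃ a ∈ c, t ≤ a) ∧ s t n = p') ∧
        ∀ k : KK s, InG s c k → k.1 p = k.1 p' := by
  classical
  by_cases hp : ∃ w, w ≤ p ∧ ∃ a ∈ c, w ≤ a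
  · right
    obtain ⟨w0, hw0p, a0, ha0, hw0a⟩ := hp
    have hne : (c.image (fun a => p ⊓ a)).Nonempty := ⟨p ⊓ a0, Finset.mem_image_of_mem _ ha0⟩
    obtain ⟨w, hwmax⟩ := Finset.exists_maximal hne
    have hwm : w ∈ c.image (fun a => p ⊓ a) := hwmax.1
    obtain ⟨a1, ha1, hw1⟩ := Finset.mem_image.1 hwm
    have hwp : w ≤ p := by rw [← hw1]; exact inf_le_left
    have hwa : w ≤ a1 := by rw [← hw1]; exact inf_le_right
    have hgr : ∀ t, (∃ a ∈ c, t ≤ a) → t ≤ p → t ≤ w := by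
      rintro t ⟨a, ha, hta⟩ htp
      have h1 : t ≤ p ⊓ a := le_inf htp hta
      have h2 : p ⊓ a ∈ c.image (fun a => p ⊓ a) := Finset.mem_image_of_mem _ ha
      rcases h.tree w (p ⊓ a) p hwp inf_le_left with h3 | h3
      · exact h1.trans (hwmax.2 h2 h3)
      · exact h1.trans h3
    have hwD : ∃ a ∈ c, w ≤ a := ⟨a1, ha1, hwa⟩
    by_cases hwe : w = p
    · exact ⟨p, Or.inl ⟨a1, ha1, hwe ▸ hwa⟩, fun k _ => rfl⟩
    · have hlt : w < p := lt_of_le_of_ne hwp hwe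
      obtain ⟨n, hn⟩ := h.ex_s w p hlt
      refine ⟨s w n, Or.inr ⟨w, n, hwD, rfl⟩, ?_⟩
      intro k hk
      rw [Bool.eq_iff_iff]
      rcases hk with rfl | ⟨t, htD, rfl | ⟨z, rfl⟩⟩
      · rw [z0_apply, z0_apply]
      · rw [vv_apply, vv_apply]
        constructor
        · intro htp
          exact (hgr t htD htp).trans (h.lt_s w n).le
        · intro ht
          exact ht.trans hn
      · rw [ss_apply, ss_apply]
        constructor
        · rintro ⟨m, hm, hmp⟩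
          refine ⟨m, hm, ?_⟩
          have htw : t ≤ w := hgr t htD ((h.lt_s t m).le.trans hmp)
          rcases h.tree (s t m) (s w n) p hmp hn with h3 | h3
          · exact h3
          · rcases h.le_s (s w n) t m h3 with h4 | h4
            · exact absurd (h4.trans htw) (not_le_of_gt (h.lt_s w n))
            · exact h4 ▸ le_rfl
        · rintro ⟨m, hm, hmp⟩
          exact ⟨m, hm, hmp.trans hn⟩
  · left
    intro k hk
    rw [Bool.eq_false_iff]
    intro hkp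
    rcases hk with rfl | ⟨t, htD, rfl | ⟨z, rfl⟩⟩
    · rw [z0_apply] at hkp
      exact Bool.false_ne_true hkp
    · rw [vv_apply] at hkp
      exact hp ⟨t, hkp, htD⟩
    · rw [ss_apply] at hkp
      obtain ⟨m, hm, hmp⟩ := hkp
      exact hp ⟨t, (h.lt_s t m).le.trans hmp, htD⟩

theorem labels {T : Type} [SemilatticeInf T] {s : T → II → T} (h : IsTree s)
    (hdet : ∀ (g : C(KK s, ℝ)) (ε : ℝ), 0 < ε → ∃ Φ : Finset T, Det s ε g Φ)
    (c : Finset T) : ∃ e : ℕ → (KK s → ℝ), ∀ (g : C(KK s, ℝ)) (ε : ℝ), 0 < ε →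
      ∃ i, ∀ k : KK s, InG s c k → |g k - e i k| ≤ ε := by
  classical
  let T0 : Set T := {p' | (∃ a ∈ c, p' ≤ a) ∨ ∃ t n, (∃ a ∈ c, t ≤ a) ∧ s t n = p'}
  have hD : ({t | ∃ a ∈ c, t ≤ a} : Set T).Countable := by
    have : ({t | ∃ a ∈ c, t ≤ a} : Set T) = ⋃ a ∈ c, {t | t ≤ a} := by
      ext t; simp
    rw [this]
    exact Set.Countable.biUnion c.countable_toSet (fun a _ => h.cnt a)
  have hT0 : T0.Countable := by
    have h1 : T0 ⊆ {t | ∃ a ∈ c, t ≤ a} ∪
        ⋃ n : II, (fun t => s t n) '' {t | ∃ a ∈ c, t ≤ a} := by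
      rintro p (hp | ⟨t, n, ht, rfl⟩)
      · exact Or.inl hp
      · exact Or.inr (Set.mem_iUnion.2 ⟨n, t, ht, rfl⟩)
    exact (hD.union (Set.countable_iUnion fun n => hD.image _)).mono h1
  have : Countable T0 := hT0.to_subtype
  have hA : ∀ p : T, ∃ Ψ : Finset T0, ∀ k k' : KK s, InG s c k → InG s c k' →
      (∀ q ∈ Ψ, k.1 (q : T) = k'.1 (q : T)) → k.1 p = k'.1 p := by
    intro p
    rcases labels_claim h c p with hp | ⟨p', hp', hp⟩
    · exact ⟨∅, fun k k' hk hk' _ => by rw [hp k hk, hp k' hk']⟩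
    · refine ⟨{⟨p', hp'⟩}, fun k k' hk hk' hq => ?_⟩
      rw [hp k hk, hp k' hk']
      exact hq ⟨p', hp'⟩ (Finset.mem_singleton_self _)
  choose Ψ hΨ using hA
  obtain ⟨en, hen⟩ := exists_surjective_nat (Finset T0 × (Finset T0 →₀ ℚ))
  let pat : Finset T0 → KK s → Finset T0 := fun Φ' k => Φ'.filter (fun q => k.1 (q : T) = true)
  refine ⟨fun i k => (((en i).2 (pat (en i).1 k) : ℚ) : ℝ), ?_⟩
  intro g ε hε
  obtain ⟨Φ, hΦ⟩ := hdet g (ε / 2) (by positivity)
  let Φ' : Finset T0 := Φ.biUnion Ψ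
  have hag : ∀ k k' : KK s, InG s c k → InG s c k' → pat Φ' k = pat Φ' k' →
      |g k - g k'| < ε / 2 := by
    intro k k' hk hk' hpat
    apply hΦ
    intro p hp
    apply hΨ p k k' hk hk'
    intro q hq
    have hqΦ : q ∈ Φ' := Finset.mem_biUnion.2 ⟨p, hp, hq⟩
    have h1 : q ∈ pat Φ' k ↔ q ∈ pat Φ' k' := by rw [hpat]
    simp only [pat, Finset.mem_filter, hqΦ, true_and] at h1
    rw [Bool.eq_iff_iff]
    exact h1
  have hr : ∀ P : Finset T0, ∃ r : ℚ, ∀ k : KK s, InG s c k → pat Φ' k = P →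
      |g k - (r : ℝ)| ≤ ε := by
    intro P
    by_cases hP : ∃ k0 : KK s, InG s c k0 ∧ pat Φ' k0 = P
    · obtain ⟨k0, hk0, hk0P⟩ := hP
      obtain ⟨r, hr1, hr2⟩ := exists_rat_btwn (show g k0 - ε / 2 < g k0 + ε / 2 by linarith)
      refine ⟨r, fun k hk hkP => ?_⟩
      have h1 := hag k k0 hk hk0 (hkP.trans hk0P.symm)
      rw [abs_lt] at h1
      rw [abs_le]
      constructor <;> linarith [h1.1, h1.2]
    · exact ⟨0, fun k hk hkP => absurd ⟨k, hk, hkP⟩ hP⟩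
  choose r hr using hr
  let R : Finset T0 →₀ ℚ := Finsupp.onFinset Φ'.powerset
    (fun P => if P ∈ Φ'.powerset then r P else 0) (by
      intro P hP
      by_contra hcon
      simp [hcon] at hP)
  obtain ⟨i, hi⟩ := hen (Φ', R)
  refine ⟨i, fun k hk => ?_⟩
  have h2 : (en i).2 (pat (en i).1 k) = r (pat Φ' k) := by
    rw [hi]
    show (if pat Φ' k ∈ Φ'.powerset then r (pat Φ' k) else 0) = r (pat Φ' k)
    rw [if_pos]
    exact Finset.mem_powerset.2 (Finset.filter_subset _ _)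
  show |g k - (((en i).2 (pat (en i).1 k) : ℚ) : ℝ)| ≤ ε
  rw [h2]
  exact hr _ k hk rfl

end Pool.Agent.Helper358.WB
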