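import Pool.Agent.Helper358.WB.Defs

set_option autoImplicit false

namespace Pool.Agent.Helper358.WB
open Set Topology


theorem local_const {T : Type} [SemilatticeInf T] {s : T → II → T} (h : IsTree s)
    (hBo : ∀ (d : ℝ) (t : T), IsOpen[tw (KK s)] {g : C(KK s, ℝ) | Bg s d g t})
    (hZo : ∀ (d' d'' : ℝ) (p : T × II), IsOpen[tw (KK s)] {g : C(KK s, ℝ) | p ∈ ZZ s d' d'' g})
    (hfin : ∀ (g : C(KK s, ℝ)) (d' d'' : ℝ), 0 < d' → d' < d'' → (ZZ s d' d'' g).Finite)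
    (hev : ∀ (f : C(KK s, ℝ)) (a : T) (d' : ℝ), 0 < d' → (∀ n, |dv s f (s a n)| < d') →
      ∃ W : Set C(KK s, ℝ), IsOpen[tw (KK s)] W ∧ f ∈ W ∧
        ∀ g ∈ W, ∀ n, Ev s d' (d' / 10) g a n)
    (f : C(KK s, ℝ)) (d' d'' : ℝ) (h0 : 0 < d') (h1 : d' < d'') (hf : Gen s d' d'' f)
    (c : Finset T) (hc : Top s d'' c f) :
    ∃ W : Set C(KK s, ℝ), IsOpen[tw (KK s)] W ∧ f ∈ W ∧
      ∀ g ∈ W, ¬ AC s d'' (c.card + 1) g → ¬ ZC s d' d'' ((ZZ s d' d'' f).ncard + 1) g →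
        Top s d'' c g := by
  classical
  have hsm : ∀ a ∈ c, ∀ n, |dv s f (s a n)| < d' := by
    intro a ha n
    rcases hf (s a n) with h2 | h2
    · exact h2
    · exfalso
      obtain ⟨b, hb, hle⟩ := hc.2.1 (s a n) (Or.inl h2)
      have hlt := h.lt_s a n
      have hab : a = b := hc.2.2 a ha b hb (hlt.le.trans hle)
      rw [← hab] at hle
      exact absurd hlt (not_lt_of_ge hle)
  have hW : ∀ a, ∃ W : Set C(KK s, ℝ), IsOpen[tw (KK s)] W ∧ f ∈ W ∧
      (a ∈ c → ∀ g ∈ W, ∀ n, Ev s d' (d' / 10) g a n) := by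
    intro a
    by_cases ha : a ∈ c
    · obtain ⟨W, hW1, hW2, hW3⟩ := hev f a d' h0 (hsm a ha)
      exact ⟨W, hW1, hW2, fun _ => hW3⟩
    · exact ⟨Set.univ, (tw (KK s)).isOpen_univ, Set.mem_univ _, fun h => absurd h ha⟩
  choose Wa hWo hWf hWe using hW
  have hZf := hfin f d' d'' h0 h1
  refine ⟨((⋂ a ∈ c, {g : C(KK s, ℝ) | Bg s d'' g a}) ∩ (⋂ a ∈ c, Wa a)) ∩
    (⋂ p ∈ hZf.toFinset, {g : C(KK s, ℝ) | p ∈ ZZ s d' d'' g}), ?_, ?_, ?_⟩
  · refine (tw (KK s)).isOpen_inter _ _ ((tw (KK s)).isOpen_inter _ _ ?_ ?_) ?_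
    · exact @isOpen_biInter_finset _ _ (tw (KK s)) _ _ (fun a _ => hBo d'' a)
    · exact @isOpen_biInter_finset _ _ (tw (KK s)) _ _ (fun a _ => hWo a)
    · exact @isOpen_biInter_finset _ _ (tw (KK s)) _ _ (fun p _ => hZo d' d'' p)
  · refine ⟨⟨?_, ?_⟩, ?_⟩
    · exact Set.mem_iInter₂.2 fun a ha => hc.1 a ha
    · exact Set.mem_iInter₂.2 fun a _ => hWf a
    · exact Set.mem_iInter₂.2 fun p hp => (Set.Finite.mem_toFinset hZf).1 hp
  · rintro g ⟨⟨hg1, hg2⟩, hg3⟩ hAC hZC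
    have hg1' : ∀ a ∈ c, Bg s d'' g a := fun a ha => Set.mem_iInter₂.1 hg1 a ha
    refine ⟨hg1', fun σ hσ => ?_, hc.2.2⟩
    by_contra hno
    push Not at hno
    by_cases hex : ∃ a ∈ c, a ≤ σ
    · obtain ⟨a, ha, hle⟩ := hex
      have hlt : a < σ := lt_of_le_not_ge hle (hno a ha)
      obtain ⟨n, hn⟩ := h.ex_s a σ hlt
      have hnot : (a, n) ∉ hZf.toFinset := by
        intro hmem
        obtain ⟨-, -, b', hb', hb2⟩ := (Set.Finite.mem_toFinset hZf).1 hmem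
        obtain ⟨b, hb, hle2⟩ := hc.2.1 b' hb2
        have hlt2 := h.lt_s a n
        have h3 : s a n ≤ b := le_trans hb' hle2
        have hab : a = b := hc.2.2 a ha b hb (hlt2.le.trans h3)
        rw [← hab] at h3
        exact absurd hlt2 (not_lt_of_ge h3)
      refine hZC ⟨insert (a, n) hZf.toFinset, ?_, ?_⟩
      · rw [Finset.card_insert_of_notMem hnot, Set.ncard_eq_toFinset_card _ hZf]
      · intro p hp
        rcases Finset.mem_insert.1 hp with rfl | hp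
        · exact ⟨hg1' a ha, hWe a ha g (Set.mem_iInter₂.1 hg2 a ha) n, σ, hn, hσ⟩
        · exact Set.mem_iInter₂.1 hg3 p hp
    · push Not at hex
      have hnot : σ ∉ c := fun hmem => hno σ hmem le_rfl
      refine hAC ⟨insert σ c, Finset.card_insert_of_notMem hnot, ?_, ?_⟩
      · intro a ha
        rcases Finset.mem_insert.1 ha with rfl | ha
        · exact hσ
        · exact hg1' a ha
      · intro a ha b hb hab
        rcases Finset.mem_insert.1 ha with ha | ha <;> rcases Finset.mem_insert.1 hb with hb | hb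
        · rw [ha, hb]
        · rw [ha] at hab
          exact absurd hab (hno b hb)
        · rw [hb] at hab
          exact absurd hab (hex a ha)
        · exact hc.2.2 a ha b hb hab

end Pool.Agent.Helper358.WB
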