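import Pool.Agent.Helper358.WB.Defs

set_option autoImplicit false

namespace Pool.Agent.Helper358.WB
open Set Topology


/-- the blocks relevant for a finite set of coordinates -/
theorem node_event_blocks13687 {T : Type} [SemilatticeInf T] {s : T → II → T} (h : IsTree s) (a : T)
    (Φ : Finset T) : ∃ J : Finset ℕ, ∀ y z : OM, (∀ j ∈ J, y j = z j) →
      ∀ p ∈ Φ, (ss s a y).1 p = (ss s a z).1 p := by
  classical
  have hj : ∀ p : T, ∃ j : ℕ, ∀ n, s a n ≤ p → n.1 = j := by
    intro p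
    by_cases hp : ∃ n, s a n ≤ p
    · obtain ⟨n, hn⟩ := hp
      exact ⟨n.1, fun n' hn' => by rw [h.s_inj a n' n p hn' hn]⟩
    · exact ⟨0, fun n hn => absurd ⟨n, hn⟩ hp⟩
  choose jp hjp using hj
  refine ⟨Φ.image jp, fun y z hyz p hp => ?_⟩
  have hJ : jp p ∈ Φ.image jp := Finset.mem_image_of_mem _ hp
  rw [Bool.eq_iff_iff, ss_apply, ss_apply]
  constructor
  · rintro ⟨n, hn, hnp⟩
    refine ⟨n, ?_, hnp⟩
    have h1 := hyz n.1 (by rw [hjp p n hnp]; exact hJ)
    unfold mem at hn ⊢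
    rw [← h1]
    exact hn
  · rintro ⟨n, hn, hnp⟩
    refine ⟨n, ?_, hnp⟩
    have h1 := hyz n.1 (by rw [hjp p n hnp]; exact hJ)
    unfold mem at hn ⊢
    rw [h1]
    exact hn

theorem node_event {T : Type} [SemilatticeInf T] {s : T → II → T} (h : IsTree s)
    [CompactSpace (KK s)]
    (hdet : ∀ (g : C(KK s, ℝ)) (ε : ℝ), 0 < ε → ∃ Φ : Finset T, Det s ε g Φ)
    (hss : ∀ t, Continuous (ss s t))
    (hfun : ∀ (z : OM) (J : Finset ℕ), ∃ l : C(OM, ℝ) →L[ℝ] ℝ,
      (∀ (φ : C(OM, ℝ)) (c ε : ℝ), (∀ y : OM, (∀ j ∈ J, y j = z j) → |φ y - c| ≤ ε) →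
        |l φ - c| ≤ ε) ∧
      (∀ (φ : C(OM, ℝ)) (n : II) (c θ : ℝ), n.1 ∉ J →
        (∀ y : OM, (mem n y → |φ y - c| ≤ θ) ∧ (¬ mem n y → |φ y| ≤ θ)) → |l φ - c / 2| ≤ θ))
    (f : C(KK s, ℝ)) (a : T) (d' : ℝ) (h0 : 0 < d') (hn : ∀ n, |dv s f (s a n)| < d') :
    ∃ W : Set C(KK s, ℝ), IsOpen[tw (KK s)] W ∧ f ∈ W ∧
      ∀ g ∈ W, ∀ n, Ev s d' (d' / 10) g a n := by
  classical
  obtain ⟨Φ, hΦ⟩ := hdet f (d' / 20) (by linarith)
  obtain ⟨J, hJ⟩ := node_event_blocks13687 h a Φ
  let z : OM := fun j => 0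
  obtain ⟨l, hl1, hl2⟩ := hfun z J
  let cs : C(OM, KK s) := ⟨ss s a, hss a⟩
  let L : C(KK s, ℝ) →L[ℝ] ℝ :=
    { toFun := fun g => l (g.comp cs)
      map_add' := by
        intro g g'
        rw [← map_add]
        rfl
      map_smul' := by
        intro c g
        simp only [RingHom.id_apply]
        rw [← map_smul]
        rfl
      cont := l.continuous.comp (ContinuousMap.continuous_precomp cs) }
  have hL : ∀ g, L g = l (g.comp cs) := fun g => rfl
  have hlc : ∀ c : ℝ, l (ContinuousMap.const OM c) = c := by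
    intro c
    have := hl1 (ContinuousMap.const OM c) c 0 (by intro y _; simp)
    exact sub_eq_zero.mp (abs_nonpos_iff.mp this)
  have hLf : |L f - f (ss s a z)| ≤ d' / 20 := by
    rw [hL]
    apply hl1
    intro y hy
    exact (hΦ _ _ (hJ y z hy)).le
  let Nf : Finset II := J.sigma (fun j => Finset.univ)
  have hNf : ∀ n : II, n.1 ∈ J → n ∈ Nf := by
    intro n hn
    rw [Finset.mem_sigma]
    exact ⟨hn, Finset.mem_univ _⟩
  let ev : KK s → (C(KK s, ℝ) →L[ℝ] ℝ) := fun k => ContinuousMap.evalCLM ℝ k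
  have hev : ∀ k (g : C(KK s, ℝ)), ev k g = g k := fun k g => rfl
  let V : Set ((C(KK s, ℝ) →L[ℝ] ℝ) → ℝ) :=
    ({x | |x (ev (ss s a z)) - f (ss s a z)| < d' / 20} ∩ {x | |x L - L f| < d' / 20}) ∩
      ⋂ n ∈ Nf, {x | |x (ev (vv s (s a n)) - ev (z0 s))| < d'}
  have hV : IsOpen V := by
    apply IsOpen.inter
    · apply IsOpen.inter
      · exact isOpen_lt (((continuous_apply _).sub continuous_const).abs) continuous_const
      · exact isOpen_lt (((continuous_apply _).sub continuous_const).abs) continuous_const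
    · apply isOpen_biInter_finset
      intro n _
      exact isOpen_lt ((continuous_apply _).abs) continuous_const
  refine ⟨(fun g : C(KK s, ℝ) => fun φ : C(KK s, ℝ) →L[ℝ] ℝ => φ g) ⁻¹' V, ?_, ?_, ?_⟩
  · exact isOpen_induced_iff.mpr ⟨V, hV, rfl⟩
  · refine ⟨⟨?_, ?_⟩, ?_⟩
    · show |f (ss s a z) - f (ss s a z)| < d' / 20
      rw [sub_self, abs_zero]
      linarith
    · show |L f - L f| < d' / 20
      rw [sub_self, abs_zero]
      linarith
    · simp only [Set.mem_iInter]
      intro n _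
      exact hn n
  · rintro g ⟨⟨hg1, hg2⟩, hg3⟩ n
    have hg1' : |g (ss s a z) - f (ss s a z)| < d' / 20 := hg1
    have hg2' : |L g - L f| < d' / 20 := hg2
    simp only [Set.mem_iInter] at hg3
    by_cases hnJ : n.1 ∈ J
    · left
      exact hg3 n (hNf n hnJ)
    · by_contra hcon
      unfold Ev at hcon
      push Not at hcon
      obtain ⟨hc1, hc2⟩ := hcon
      set c := dv s g (s a n) with hc
      let ψ : C(OM, ℝ) := g.comp cs - ContinuousMap.const OM (g (z0 s))
      have hψ : ∀ y, ψ y = dS s g a y := fun y => rfl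
      have hlψ : l ψ = L g - g (z0 s) := by
        show l (g.comp cs - ContinuousMap.const OM (g (z0 s))) = _
        rw [map_sub, hlc, hL]
      have h2 := hl2 ψ n c (d' / 10) hnJ (by
        intro y
        constructor
        · intro hy
          have := hc2 y
          rw [if_pos hy] at this
          rw [hψ]
          exact this
        · intro hy
          have := hc2 y
          rw [if_neg hy, sub_zero] at this
          rw [hψ]
          exact this)
      rw [hlψ] at h2
      have h3 := hc2 z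
      have hdS : dS s g a z = g (ss s a z) - g (z0 s) := rfl
      rw [hdS] at h3
      rw [abs_lt] at hg1' hg2'
      rw [abs_le] at hLf h2
      obtain ⟨g1, g2⟩ := hg1'
      obtain ⟨g3, g4⟩ := hg2'
      obtain ⟨g5, g6⟩ := hLf
      obtain ⟨g7, g8⟩ := h2
      by_cases hz : mem n z
      · rw [if_pos hz, abs_le] at h3
        obtain ⟨g9, g10⟩ := h3
        rcases le_abs.mp hc1 with h4 | h4 <;> linarith
      · rw [if_neg hz, sub_zero, abs_le] at h3
        obtain ⟨g9, g10⟩ := h3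
        rcases le_abs.mp hc1 with h4 | h4 <;> linarith

end Pool.Agent.Helper358.WB
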