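import Pool.Agent.Helper358.WB.Defs

set_option autoImplicit false

namespace Pool.Agent.Helper358.WB
open Set Topology


theorem not_borel {T : Type} [SemilatticeInf T] {s : T → II → T} (h : IsTree s)
    [CompactSpace (KK s)]
    (ht : ∀ (U : Set C(KK s, ℝ)), IsOpen[tp (KK s)] U → ∀ u : T, fu s u ∈ U →
      ∃ n, ∀ v, s u n ≤ v → fu s v ∈ U) :
    ∃ D : Set C(KK s, ℝ), IsClosed D ∧ ¬ @MeasurableSet _ (@borel _ (tp (KK s))) D := by
  classical
  have hfu : ∀ u w, fu s u (vv s w) = if w ≤ u then 1 else 0 := by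
    intro u w
    show (if (vv s w).1 u = true then (1 : ℝ) else 0) = if w ≤ u then 1 else 0
    simp only [vv_apply]
  have hdist0 : ∀ u v, ¬ u ≤ v → 1 ≤ dist (fu s u) (fu s v) := by
    intro u v huv
    refine le_trans (le_of_eq ?_) (ContinuousMap.dist_apply_le_dist (vv s u))
    rw [hfu, hfu, if_pos le_rfl, if_neg huv]
    simp
  have hdist : ∀ u v, u ≠ v → 1 ≤ dist (fu s u) (fu s v) := by
    intro u v huv
    by_cases h1 : u ≤ v
    · have h2 : ¬ v ≤ u := fun h3 => huv (le_antisymm h1 h3)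
      rw [dist_comm]
      exact hdist0 v u h2
    · exact hdist0 u v h1
  have hinj : ∀ u v, fu s u = fu s v → u = v := by
    intro u v huv
    by_contra hne
    have := hdist u v hne
    rw [huv, dist_self] at this
    linarith
  obtain ⟨n0, n1, hn01⟩ : ∃ n0 n1 : II, n1 ≠ n0 := by
    refine ⟨⟨0, ⟨{0}, by simp⟩⟩, ⟨0, ⟨{1}, by simp⟩⟩, fun hh => ?_⟩
    have h1 := eq_of_heq (Sigma.mk.inj_iff.1 hh).2
    have h2 : ({1} : Finset (Fin (2 * 0 + 2))) = {0} := congrArg Subtype.val h1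
    rw [Finset.singleton_inj] at h2
    exact absurd h2 (by decide)
  refine ⟨Set.range fun t => fu s (s t n0), ?_, ?_⟩
  · refine Metric.isClosed_of_pairwise_le_dist one_pos ?_
    rintro _ ⟨t, rfl⟩ _ ⟨t', rfl⟩ hne
    exact hdist _ _ fun heq => hne (by simp only [heq])
  · intro hD
    let P : Set C(KK s, ℝ) → Prop := fun B => ∀ v : T, ∃ w, v ≤ w ∧
      ((∀ x, w ≤ x → fu s x ∈ B) ∨ (∀ x, w ≤ x → fu s x ∉ B))
    let m : MeasurableSpace C(KK s, ℝ) :=
      { MeasurableSet' := P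
        measurableSet_empty := fun v => ⟨v, le_rfl, Or.inr fun _ _ hx => hx⟩
        measurableSet_compl := fun B hB v => by
          obtain ⟨w, hw, h1 | h1⟩ := hB v
          · exact ⟨w, hw, Or.inr fun x hx hx2 => hx2 (h1 x hx)⟩
          · exact ⟨w, hw, Or.inl fun x hx => h1 x hx⟩
        measurableSet_iUnion := fun B hB v => by
          by_cases h1 : ∃ i w, v ≤ w ∧ ∀ x, w ≤ x → fu s x ∈ B i
          · obtain ⟨i, w, hw, h2⟩ := h1
            exact ⟨w, hw, Or.inl fun x hx => Set.mem_iUnion.2 ⟨i, h2 x hx⟩⟩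
          · have h2 : ∀ (i : ℕ) (w : {w : T // v ≤ w}), ∃ w' : {w : T // v ≤ w},
                w.1 ≤ w'.1 ∧ ∀ x, w'.1 ≤ x → fu s x ∉ B i := by
              intro i w
              obtain ⟨w', hw', h3 | h3⟩ := hB i w.1
              · exact absurd ⟨i, w', w.2.trans hw', h3⟩ h1
              · exact ⟨⟨w', w.2.trans hw'⟩, hw', h3⟩
            choose f hf1 hf2 using h2
            obtain ⟨x, hx0, hx⟩ : ∃ x : ℕ → {w : T // v ≤ w}, x 0 = ⟨v, le_rfl⟩ ∧
                ∀ n, x (n + 1) = f n (x n) :=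
              ⟨fun n => Nat.rec ⟨v, le_rfl⟩ (fun n x => f n x) n, rfl, fun n => rfl⟩
            obtain ⟨y, hy⟩ := h.ub (fun n => (x n).1) (fun k => by rw [hx]; exact hf1 k (x k))
            refine ⟨y, (x 0).2.trans (hy 0), Or.inr fun z hz hz2 => ?_⟩
            obtain ⟨i, hi⟩ := Set.mem_iUnion.1 hz2
            have h4 := hy (i + 1)
            simp only [hx] at h4
            exact hf2 i (x i) z (h4.trans hz) hi }
    have hle : @borel _ (tp (KK s)) ≤ m := by
      refine MeasurableSpace.generateFrom_le fun U hU => ?_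
      show P U
      intro v
      by_cases h1 : ∃ u, v ≤ u ∧ fu s u ∈ U
      · obtain ⟨u, hu, hu2⟩ := h1
        obtain ⟨n, hn⟩ := ht U hU u hu2
        exact ⟨s u n, hu.trans (h.lt_s u n).le, Or.inl hn⟩
      · exact ⟨v, le_rfl, Or.inr fun x hx hx2 => h1 ⟨x, hx, hx2⟩⟩
    have hP : P (Set.range fun t => fu s (s t n0)) := hle _ hD
    obtain ⟨v⟩ := h.ne
    obtain ⟨w, hw, h1 | h1⟩ := hP v
    · obtain ⟨t, h2⟩ := h1 (s w n1) (h.lt_s w n1).le
      have h3 : s t n0 = s w n1 := hinj _ _ h2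
      have h4 : w ≤ t := by
        rcases h.le_s w t n0 (by rw [h3]; exact (h.lt_s w n1).le) with h5 | h5
        · exact h5
        · rw [h3] at h5
          exact absurd (h.lt_s w n1) (by rw [← h5]; exact lt_irrefl _)
      have h5 : t ≤ w := by
        rcases h.le_s t w n1 (by rw [← h3]; exact (h.lt_s t n0).le) with h5 | h5
        · exact h5
        · rw [← h3] at h5
          exact absurd (h.lt_s t n0) (by rw [← h5]; exact lt_irrefl _)
      have h6 : w = t := le_antisymm h4 h5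
      subst h6
      exact hn01 (h.s_inj w n1 n0 (s w n1) le_rfl h3.le)
    · exact h1 (s w n0) (h.lt_s w n0).le ⟨w, rfl⟩

end Pool.Agent.Helper358.WB
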