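import Pool.Agent.Helper358.WB.Defs

set_option autoImplicit false

namespace Pool.Agent.Helper358.WB
open Set Topology


theorem top_AC {T : Type} [SemilatticeInf T] {s : T → II → T} (h : IsTree s)
    (g : KK s → ℝ) (d'' : ℝ) (c : Finset T) (hc : Top s d'' c g) :
    AC s d'' c.card g ∧ ¬ AC s d'' (c.card + 1) g := by
  classical
  obtain ⟨h1, h2, h3⟩ := hc
  refine ⟨⟨c, rfl, h1, h3⟩, ?_⟩
  rintro ⟨F, hF, hb, hanti⟩
  choose! φ hφ using h2
  have hle : F.card ≤ c.card := by
    apply Finset.card_le_card_of_injOn φ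
    · intro a ha
      exact (hφ a (hb a ha)).1
    · intro a ha a' ha' hEq
      have e1 : a ≤ φ a := (hφ a (hb a ha)).2
      have e2 : a' ≤ φ a' := (hφ a' (hb a' ha')).2
      have hEq' : φ a = φ a' := hEq
      rw [← hEq'] at e2
      rcases h.tree a a' (φ a) e1 e2 with h4 | h4
      · exact hanti a ha a' ha' h4
      · exact (hanti a' ha' a ha h4).symm
  omega

end Pool.Agent.Helper358.WB
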