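import Pool.Agent.Helper358.WB.Defs

set_option autoImplicit false

namespace Pool.Agent.Helper358.WB
open Set Topology


theorem tp_nhds_dir {T : Type} [SemilatticeInf T] {s : T → II → T} (h : IsTree s) (u w : T) :
    ∃ N : Finset II, ∀ n, n ∉ N → ¬ s u n ≤ w := by
  by_cases hn : ∃ n0, s u n0 ≤ w
  · obtain ⟨n0, h0⟩ := hn
    refine ⟨{n0}, fun n hn hle => hn ?_⟩
    rw [Finset.mem_singleton]
    exact h.s_inj u n n0 w hle h0
  · exact ⟨∅, fun n _ hle => hn ⟨n, hle⟩⟩

theorem tp_nhds_point {T : Type} [SemilatticeInf T] {s : T → II → T} (h : IsTree s)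
    (u : T) (k : KK s) : ∃ (F : Finset OM) (N : Finset II), ∀ n, n ∉ N →
      (∀ z ∈ F, ¬ mem n z) → ∀ v, s u n ≤ v → k.1 v = k.1 u := by
  rcases KK_cases s k with rfl | ⟨w, rfl⟩ | ⟨t, z, rfl⟩
  · exact ⟨∅, ∅, fun n _ _ v _ => by rw [z0_apply, z0_apply]⟩
  · obtain ⟨N, hN⟩ := tp_nhds_dir h u w
    refine ⟨∅, N, fun n hn _ v hv => ?_⟩
    rw [Bool.eq_iff_iff, vv_apply, vv_apply]
    constructor
    · intro hw
      rcases h.tree (s u n) w v hv hw with h1 | h1
      · exact absurd h1 (hN n hn)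
      · rcases h.le_s w u n h1 with h2 | h2
        · exact h2
        · exact absurd h2.ge (hN n hn)
    · intro hw
      exact hw.trans ((h.lt_s u n).le.trans hv)
  · obtain ⟨N, hN⟩ := tp_nhds_dir h u t
    refine ⟨{z}, N, fun n hn hz v hv => ?_⟩
    have hz' : ¬ mem n z := hz z (Finset.mem_singleton_self z)
    rw [Bool.eq_iff_iff, ss_apply, ss_apply]
    constructor
    · rintro ⟨m, hm, hle⟩
      have key : s t m = s u n → False := by
        intro he
        have h1 : t ≤ u := by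
          have h3 : t ≤ s u n := he ▸ (h.lt_s t m).le
          rcases h.le_s t u n h3 with h2 | h2
          · exact h2
          · exact absurd (h2.trans he.symm) (h.lt_s t m).ne
        have h2 : u ≤ t := by
          have h3 : u ≤ s t m := he.symm ▸ (h.lt_s u n).le
          rcases h.le_s u t m h3 with h2 | h2
          · exact h2
          · exact absurd (h2.trans he) (h.lt_s u n).ne
        have h4 : t = u := le_antisymm h1 h2
        subst h4
        have h5 : m = n := h.s_inj t m n (s t n) he.le le_rfl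
        exact hz' (h5 ▸ hm)
      rcases h.tree (s u n) (s t m) v hv hle with h1 | h1
      · rcases h.le_s (s u n) t m h1 with h2 | h2
        · exact absurd h2 (hN n hn)
        · exact (key h2.symm).elim
      · rcases h.le_s (s t m) u n h1 with h2 | h2
        · exact ⟨m, hm, h2⟩
        · exact (key h2).elim
    · rintro ⟨m, hm, hle⟩
      exact ⟨m, hm, hle.trans ((h.lt_s u n).le.trans hv)⟩

theorem tp_nhds {T : Type} [SemilatticeInf T] {s : T → II → T} (h : IsTree s)
    (hd : ∀ (F : Finset OM) (N : Finset II), ∃ n : II, n ∉ N ∧ ∀ z ∈ F, ¬ mem n z)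
    (U : Set C(KK s, ℝ)) (hU : IsOpen[tp (KK s)] U) (u : T) (hu : fu s u ∈ U) :
    ∃ n, ∀ v, s u n ≤ v → fu s v ∈ U := by
  classical
  rw [isOpen_induced_iff] at hU
  obtain ⟨V, hV, rfl⟩ := hU
  rw [isOpen_pi_iff] at hV
  obtain ⟨I, w, hw, hsub⟩ := hV _ hu
  choose F N hFN using fun k : KK s => tp_nhds_point h u k
  obtain ⟨n, hn1, hn2⟩ := hd (I.biUnion F) (I.biUnion N)
  refine ⟨n, fun v hv => hsub ?_⟩
  intro k hk
  have h1 : k.1 v = k.1 u := hFN k n (fun hc => hn1 (Finset.mem_biUnion.mpr ⟨k, hk, hc⟩))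
    (fun z hz => hn2 z (Finset.mem_biUnion.mpr ⟨k, hk, hz⟩)) v hv
  have h2 : fu s v k = fu s u k := by
    show (if k.1 v = true then (1 : ℝ) else 0) = if k.1 u = true then (1 : ℝ) else 0
    rw [h1]
  show fu s v k ∈ w k
  rw [h2]
  exact (hw k hk).2

end Pool.Agent.Helper358.WB
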