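import Pool.Agent.Helper358.WB.Defs

set_option autoImplicit false

namespace Pool.Agent.Helper358.WB
open Set Topology


theorem weak_borel_uniq {T : Type} [SemilatticeInf T] {s : T → II → T} {d : ℝ} {c c' : Finset T}
    {g : KK s → ℝ} (h : Top s d c g) (h' : Top s d c' g) : c = c' := by
  have key : ∀ c c' : Finset T, Top s d c g → Top s d c' g → c ⊆ c' := by
    intro c c' h h' a ha
    obtain ⟨b, hb, hab⟩ := h'.2.1 a (h.1 a ha)
    obtain ⟨a', ha', hba⟩ := h.2.1 b (h'.1 b hb)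
    have h1 := h.2.2 a ha a' ha' (le_trans hab hba)
    have h2 : a = b := le_antisymm hab (h1 ▸ hba)
    rw [h2]; exact hb
  exact Finset.Subset.antisymm (key c c' h h') (key c' c h' h)

theorem weak_borel_ev {K : Type} [TopologicalSpace K] [CompactSpace K] (k : K) :
    @Continuous C(K, ℝ) ℝ (tw K) _ (fun g => g k) := by
  have h1 : @Continuous C(K, ℝ) ((C(K, ℝ) →L[ℝ] ℝ) → ℝ) (tw K) _ (fun f φ => φ f) :=
    continuous_induced_dom
  have h2 : Continuous (fun F : (C(K, ℝ) →L[ℝ] ℝ) → ℝ => F (ContinuousMap.evalCLM ℝ k)) :=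
    continuous_apply _
  exact @Continuous.comp C(K, ℝ) ((C(K, ℝ) →L[ℝ] ℝ) → ℝ) ℝ (tw K) _ _ _ _ h2 h1

theorem weak_borel_sdiff {X : Type*} (τ : TopologicalSpace X) {A B : Set X} (hA : IsOpen[τ] A)
    (hB : @IsClosed X τ B) : IsOpen[τ] (A \ B) := IsOpen.sdiff hA hB

theorem weak_borel_closed {T : Type} [SemilatticeInf T] {s : T → II → T}
    [CompactSpace (KK s)] (c : Finset T) (e : KK s → ℝ) (ε q : ℝ) :
    @IsClosed C(KK s, ℝ) (tw (KK s)) {g | (∀ k, InG s c k → |g k - e k| ≤ ε) ∧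
      ∀ k, ¬ InG s c k → |g k - g (z0 s)| ≤ q} := by
  letI := tw (KK s)
  have h1 : ∀ k, IsClosed {g : C(KK s, ℝ) | InG s c k → |g k - e k| ≤ ε} := by
    intro k
    by_cases hk : InG s c k
    · simp only [hk, true_imp_iff]
      exact isClosed_le (((weak_borel_ev k).sub continuous_const).abs) continuous_const
    · simp only [hk, false_imp_iff, setOf_true]
      exact isClosed_univ
  have h2 : ∀ k, IsClosed {g : C(KK s, ℝ) | ¬ InG s c k → |g k - g (z0 s)| ≤ q} := by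
    intro k
    by_cases hk : InG s c k
    · simp only [hk, not_true_eq_false, false_imp_iff, setOf_true]
      exact isClosed_univ
    · simp only [hk, not_false_eq_true, true_imp_iff]
      exact isClosed_le (((weak_borel_ev k).sub (weak_borel_ev (z0 s))).abs) continuous_const
  have h3 : {g : C(KK s, ℝ) | (∀ k, InG s c k → |g k - e k| ≤ ε) ∧
      ∀ k, ¬ InG s c k → |g k - g (z0 s)| ≤ q} =
      (⋂ k, {g : C(KK s, ℝ) | InG s c k → |g k - e k| ≤ ε}) ∩
      ⋂ k, {g : C(KK s, ℝ) | ¬ InG s c k → |g k - g (z0 s)| ≤ q} := by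
    ext g
    simp
  rw [h3]
  exact (isClosed_iInter h1).inter (isClosed_iInter h2)

theorem weak_borel {T : Type} [SemilatticeInf T] {s : T → II → T} (h : IsTree s)
    [CompactSpace (KK s)]
    (hAo : ∀ (d : ℝ) (r : ℕ), IsOpen[tw (KK s)] {g : C(KK s, ℝ) | AC s d r g})
    (hZo : ∀ (d' d'' : ℝ) (m : ℕ), IsOpen[tw (KK s)] {g : C(KK s, ℝ) | ZC s d' d'' m g})
    (hgen : ∀ (g : C(KK s, ℝ)) (η : ℝ), 0 < η →
      ∃ q' q'' : ℚ, 0 < (q' : ℝ) ∧ (q' : ℝ) < q'' ∧ (q'' : ℝ) < η ∧ Gen s q' q'' g)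
    (htop : ∀ (g : C(KK s, ℝ)) (d' d'' : ℝ), 0 < d' → d' < d'' → Gen s d' d'' g →
      ∃ c : Finset T, Top s d'' c g)
    (hAC : ∀ (g : C(KK s, ℝ)) (d'' : ℝ) (c : Finset T), Top s d'' c g →
      AC s d'' c.card g ∧ ¬ AC s d'' (c.card + 1) g)
    (hZC : ∀ (g : C(KK s, ℝ)) (d' d'' : ℝ), 0 < d' → d' < d'' →
      ZC s d' d'' (ZZ s d' d'' g).ncard g ∧ ¬ ZC s d' d'' ((ZZ s d' d'' g).ncard + 1) g)
    (hloc : ∀ (f : C(KK s, ℝ)) (d' d'' : ℝ), 0 < d' → d' < d'' → Gen s d' d'' f →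
      ∀ (c : Finset T), Top s d'' c f →
      ∃ W : Set C(KK s, ℝ), IsOpen[tw (KK s)] W ∧ f ∈ W ∧
        ∀ g ∈ W, ¬ AC s d'' (c.card + 1) g → ¬ ZC s d' d'' ((ZZ s d' d'' f).ncard + 1) g →
          Top s d'' c g)
    (hlab : ∀ (c : Finset T), ∃ e : ℕ → (KK s → ℝ), ∀ (g : C(KK s, ℝ)) (ε : ℝ), 0 < ε →
      ∃ i, ∀ k : KK s, InG s c k → |g k - e i k| ≤ ε)
    (U : Set C(KK s, ℝ)) (hU : IsOpen U) : @MeasurableSet _ (@borel _ (tw (KK s))) U := by
  classical
  letI mw : MeasurableSpace C(KK s, ℝ) := @borel _ (tw (KK s))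
  show MeasurableSet U
  have hopen : ∀ V : Set C(KK s, ℝ), IsOpen[tw (KK s)] V → MeasurableSet V :=
    fun V hV => MeasurableSpace.measurableSet_generateFrom hV
  choose e he using hlab
  set Y : ℚ → ℚ → ℕ → ℕ → Set C(KK s, ℝ) := fun q' q'' r m =>
    {g | AC s q'' r g ∧ ¬ AC s q'' (r + 1) g ∧ ¬ ZC s q' q'' (m + 1) g} with hY
  have hYm : ∀ q' q'' r m, MeasurableSet (Y q' q'' r m) := by
    intro q' q'' r m
    have h1 := hopen _ (hAo q'' r)
    have h2 := (hopen _ (hAo q'' (r + 1))).compl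
    have h3 := (hopen _ (hZo q' q'' (m + 1))).compl
    exact h1.inter (h2.inter h3)
  set O : Set C(KK s, ℝ) → ℚ → Finset T → Set C(KK s, ℝ) := fun Y q'' c =>
    ⋃₀ {W | IsOpen[tw (KK s)] W ∧ ∀ g ∈ W, g ∈ Y → Top s q'' c g} with hO
  have hOo : ∀ Y q'' c, IsOpen[tw (KK s)] (O Y q'' c) := fun Y q'' c =>
    @isOpen_sUnion _ (tw (KK s)) _ (fun W hW => hW.1)
  have hOt : ∀ Y q'' c g, g ∈ O Y q'' c → g ∈ Y → Top s q'' c g := by
    rintro Y q'' c g ⟨W, hW, hgW⟩ hgY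
    exact hW.2 g hgW hgY
  set Bl : Finset T → ℕ → ℕ → ℚ → Set C(KK s, ℝ) := fun c i j q'' =>
    {g | (∀ k, InG s c k → |g k - e c i k| ≤ 1 / ((j : ℝ) + 1)) ∧
      ∀ k, ¬ InG s c k → |g k - g (z0 s)| ≤ q''} with hBl
  have hBlc : ∀ c i j q'', @IsClosed _ (tw (KK s)) (Bl c i j q'') := fun c i j q'' =>
    weak_borel_closed c (e c i) (1 / ((j : ℝ) + 1)) q''
  set R : ℚ → ℚ → ℕ → ℕ → ℕ → ℕ → Set C(KK s, ℝ) := fun q' q'' r m i j =>
    (Y q' q'' r m ∩ ⋃ c ∈ {c | Bl c i j q'' ⊆ U}, O (Y q' q'' r m) q'' c) \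
      ⋃ c ∈ {c | Bl c i j q'' ⊆ U}, (O (Y q' q'' r m) q'' c \ Bl c i j q'') with hR
  have hRm : ∀ q' q'' r m i j, MeasurableSet (R q' q'' r m i j) := by
    intro q' q'' r m i j
    apply MeasurableSet.diff
    · apply (hYm _ _ _ _).inter
      apply hopen
      exact @isOpen_biUnion _ _ (tw (KK s)) _ _ (fun c _ => hOo _ _ c)
    · apply hopen
      apply @isOpen_biUnion _ _ (tw (KK s)) _ _ (fun c _ => ?_)
      exact weak_borel_sdiff (tw (KK s)) (hOo _ _ c) (hBlc c i j q'')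
  have hRU : ∀ q' q'' r m i j, R q' q'' r m i j ⊆ U := by
    rintro q' q'' r m i j g ⟨⟨hgY, hgO⟩, hgN⟩
    simp only [mem_iUnion] at hgO
    obtain ⟨c, hc, hgc⟩ := hgO
    apply hc
    by_contra hgB
    apply hgN
    simp only [mem_iUnion]
    exact ⟨c, hc, hgc, hgB⟩
  have hcov : U = ⋃ q' : ℚ, ⋃ q'' : ℚ, ⋃ r : ℕ, ⋃ m : ℕ, ⋃ i : ℕ, ⋃ j : ℕ, R q' q'' r m i j := by
    apply Subset.antisymm
    · intro g hg
      obtain ⟨ρ, hρ, hball⟩ := Metric.isOpen_iff.1 hU g hg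
      obtain ⟨q', q'', hq0, hq1, hq2, hG⟩ := hgen g (ρ / 8) (by positivity)
      obtain ⟨c, hc⟩ := htop g q' q'' hq0 hq1 hG
      obtain ⟨hA1, hA2⟩ := hAC g q'' c hc
      obtain ⟨hZ1, hZ2⟩ := hZC g q' q'' hq0 hq1
      obtain ⟨W, hWo, hgW, hW⟩ := hloc g q' q'' hq0 hq1 hG c hc
      obtain ⟨j, hj⟩ := exists_nat_one_div_lt (show 0 < ρ / 8 by positivity)
      obtain ⟨i, hi⟩ := he c g (1 / ((j : ℝ) + 1)) (by positivity)
      have hgY : g ∈ Y q' q'' c.card (ZZ s q' q'' g).ncard := ⟨hA1, hA2, hZ2⟩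
      have hgO : g ∈ O (Y q' q'' c.card (ZZ s q' q'' g).ncard) q'' c :=
        ⟨W, ⟨hWo, fun g' hg' hY' => hW g' hg' hY'.2.1 hY'.2.2⟩, hgW⟩
      have hgB : g ∈ Bl c i j q'' := by
        refine ⟨hi, ?_⟩
        intro k hk
        rcases KK_cases s k with h0 | ⟨u, hu⟩ | ⟨t, z, htz⟩
        · exact absurd (Or.inl h0) hk
        · have hnb : ¬ Bg s q'' g u := by
            intro hb
            obtain ⟨b, hb1, hb2⟩ := hc.2.1 u hb
            exact hk (Or.inr ⟨u, ⟨b, hb1, hb2⟩, Or.inl hu⟩)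
          unfold Bg at hnb
          push Not at hnb
          rw [hu]
          exact hnb.1
        · have hnb : ¬ Bg s q'' g t := by
            intro hb
            obtain ⟨b, hb1, hb2⟩ := hc.2.1 t hb
            exact hk (Or.inr ⟨t, ⟨b, hb1, hb2⟩, Or.inr ⟨z, htz⟩⟩)
          unfold Bg at hnb
          push Not at hnb
          rw [htz]
          exact hnb.2 z
      have hBU : Bl c i j q'' ⊆ U := by
        intro g' hg'
        apply hball
        rw [Metric.mem_ball]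
        have hd : dist g' g ≤ ρ / 2 := by
          rw [ContinuousMap.dist_le (by positivity)]
          have hin : ∀ k, InG s c k → |g' k - g k| ≤ ρ / 4 := by
            intro k hk
            have h1 := abs_le.1 (hg'.1 k hk)
            have h2 := abs_le.1 (hi k hk)
            rw [abs_le]
            constructor <;> linarith [h1.1, h1.2, h2.1, h2.2]
          intro k
          rw [Real.dist_eq]
          by_cases hk : InG s c k
          · exact (hin k hk).trans (by linarith)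
          · have h1 := abs_le.1 (hg'.2 k hk)
            have h2 := abs_le.1 (hgB.2 k hk)
            have h3 := abs_le.1 (hin (z0 s) (Or.inl rfl))
            rw [abs_le]
            constructor <;> linarith [h1.1, h1.2, h2.1, h2.2, h3.1, h3.2]
        linarith
      simp only [mem_iUnion]
      refine ⟨q', q'', c.card, (ZZ s q' q'' g).ncard, i, j, ⟨hgY, ?_⟩, ?_⟩
      · simp only [mem_iUnion]
        exact ⟨c, hBU, hgO⟩
      · simp only [mem_iUnion]
        rintro ⟨c', hc', hgc', hgn⟩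
        have := weak_borel_uniq (hOt _ _ _ _ hgc' hgY) hc
        rw [this] at hgn
        exact hgn hgB
    · intro g hg
      simp only [mem_iUnion] at hg
      obtain ⟨q', q'', r, m, i, j, hg⟩ := hg
      exact hRU _ _ _ _ _ _ hg
  rw [hcov]
  exact MeasurableSet.iUnion fun q' => MeasurableSet.iUnion fun q'' => MeasurableSet.iUnion fun r =>
    MeasurableSet.iUnion fun m => MeasurableSet.iUnion fun i => MeasurableSet.iUnion fun j =>
      hRm q' q'' r m i j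

end Pool.Agent.Helper358.WB
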