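import Pool.Agent.Helper358.WB.P_exists_tree
import Pool.Agent.Helper358.WB.P_dodge
import Pool.Agent.Helper358.WB.P_exists_functional
import Pool.Agent.Helper358.WB.P_isClosed_KS
import Pool.Agent.Helper358.WB.P_continuous_ss
import Pool.Agent.Helper358.WB.P_tp_nhds
import Pool.Agent.Helper358.WB.P_not_borel
import Pool.Agent.Helper358.WB.P_exists_det
import Pool.Agent.Helper358.WB.P_ZZ_finite
import Pool.Agent.Helper358.WB.P_exists_top
import Pool.Agent.Helper358.WB.P_isClosed_VV
import Pool.Agent.Helper358.WB.P_exists_gen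
import Pool.Agent.Helper358.WB.P_node_event
import Pool.Agent.Helper358.WB.P_Bg_open
import Pool.Agent.Helper358.WB.P_ZZ_open
import Pool.Agent.Helper358.WB.P_AC_open
import Pool.Agent.Helper358.WB.P_ZC_open
import Pool.Agent.Helper358.WB.P_local_const
import Pool.Agent.Helper358.WB.P_top_AC
import Pool.Agent.Helper358.WB.P_ZC_ncard
import Pool.Agent.Helper358.WB.P_labels
import Pool.Agent.Helper358.WB.P_weak_borel

set_option autoImplicit false

namespace Pool.Agent.Helper358.WB

open Set Topology

theorem weak_eq {T : Type} [SemilatticeInf T] {s : T → II → T} (h : IsTree s)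
    [CompactSpace (KK s)] : @borel C(KK s, ℝ) (tw (KK s)) = borel C(KK s, ℝ) := by
  refine le_antisymm (borel_anti ?_) (MeasurableSpace.generateFrom_le fun U hU => ?_)
  · rw [← continuous_iff_le_induced]
    exact continuous_pi fun φ => φ.continuous
  · have hdet : ∀ (g : C(KK s, ℝ)) (ε : ℝ), 0 < ε → ∃ Φ : Finset T, Det s ε g Φ := exists_det
    have hfin : ∀ (g : C(KK s, ℝ)) (d' d'' : ℝ), 0 < d' → d' < d'' → (ZZ s d' d'' g).Finite :=
      fun g d' d'' h0 h1 => ZZ_finite h hdet g d' d'' h0 h1
    exact weak_borel h (fun d r => AC_open d r) (fun d' d'' m => ZC_open d' d'' m)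
      (exists_gen h hdet (isClosed_VV h))
      (fun g d' d'' h0 h1 hg => exists_top h hdet g d' d'' h0 h1 hg)
      (fun g d'' c hc => top_AC h g d'' c hc)
      (fun g d' d'' h0 h1 => ZC_ncard g d' d'' (hfin g d' d'' h0 h1))
      (fun f d' d'' h0 h1 hf c hc => local_const h (fun d t => Bg_open d t)
        (fun d' d'' p => ZZ_open d' d'' p) hfin
        (fun f a d' h0 hn => node_event h hdet (continuous_ss h) exists_functional f a d' h0 hn)
        f d' d'' h0 h1 hf c hc)
      (fun c => labels h hdet c) U hU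

/-- The main theorem. -/
theorem main : ∃ (K : Type) (_ : TopologicalSpace K) (_ : CompactSpace K) (_ : T2Space K),
    @borel C(K, ℝ)
      (TopologicalSpace.induced
        (fun f : C(K, ℝ) => fun φ : C(K, ℝ) →L[ℝ] ℝ => φ f) inferInstance) = borel C(K, ℝ) ∧
    @borel C(K, ℝ)
      (TopologicalSpace.induced (fun f : C(K, ℝ) => (⇑f : K → ℝ)) inferInstance)
        ≠ borel C(K, ℝ) := by
  obtain ⟨T, _, s, h⟩ := exists_tree
  have : CompactSpace (KK s) := isCompact_iff_compactSpace.1 (isClosed_KS h).isCompact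
  refine ⟨KK s, inferInstance, inferInstance, inferInstance, weak_eq h, fun heq => ?_⟩
  obtain ⟨D, hD, hD'⟩ := not_borel h (tp_nhds h dodge)
  apply hD'
  have : @MeasurableSet _ (borel C(KK s, ℝ)) D := by
    borelize C(KK s, ℝ)
    exact hD.measurableSet
  rw [← heq] at this
  exact this

end Pool.Agent.Helper358.WB
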