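import Pool.Agent.Helper358.WB.Defs

set_option autoImplicit false

namespace Pool.Agent.Helper358.WB
open Set Topology


theorem exists_gen {T : Type} [SemilatticeInf T] {s : T → II → T} (h : IsTree s)
    [CompactSpace (KK s)]
    (hdet : ∀ (g : C(KK s, ℝ)) (ε : ℝ), 0 < ε → ∃ Φ : Finset T, Det s ε g Φ)
    (hcl : IsClosed {k : KK s | k = z0 s ∨ ∃ u, k = vv s u})
    (g : C(KK s, ℝ)) (η : ℝ) (hη : 0 < η) :
    ∃ q' q'' : ℚ, 0 < (q' : ℝ) ∧ (q' : ℝ) < q'' ∧ (q'' : ℝ) < η ∧ Gen s q' q'' g := by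
  obtain ⟨Φ, hΦ⟩ := hdet g (η / 2) (by positivity)
  have hU : {u | η / 2 ≤ |dv s g u|}.Countable := by
    have hc : (⋃ p ∈ Φ, {u : T | u ≤ p}).Countable :=
      Φ.countable_toSet.biUnion fun p _ => h.cnt p
    apply hc.mono
    intro u hu
    by_contra hcon
    simp only [Set.mem_iUnion, not_exists] at hcon
    have h1 := hΦ (vv s u) (z0 s) (by
      intro p hp
      rw [z0_apply]
      by_contra hne
      rw [Bool.not_eq_false, vv_apply] at hne
      exact hcon p hp hne)
    exact absurd h1 (not_lt.2 hu)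
  have hVal : ((fun u => |dv s g u|) '' {u | η / 2 ≤ |dv s g u|}).Countable := hU.image _
  obtain ⟨x, hx1, hx2⟩ := (hVal.dense_compl ℝ).inter_open_nonempty (Ioo (η / 2) η) isOpen_Ioo
    ⟨3 / 4 * η, by constructor <;> linarith⟩
  have hne : ∀ u, |dv s g u| ≠ x := by
    intro u hu
    rcases le_or_gt (η / 2) |dv s g u| with h1 | h1
    · exact hx2 ⟨u, h1, hu⟩
    · rw [hu] at h1
      exact absurd hx1.1 (not_lt.2 h1.le)
  have hcomp : IsCompact {k : KK s | k = z0 s ∨ ∃ u, k = vv s u} := hcl.isCompact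
  obtain ⟨k0, hk0, hmin⟩ := hcomp.exists_isMinOn ⟨z0 s, Or.inl rfl⟩
    (f := fun k => |(|g k - g (z0 s)|) - x|) (by
      apply Continuous.continuousOn
      exact (((g.continuous.sub continuous_const).abs).sub continuous_const).abs)
  have hm : 0 < |(|g k0 - g (z0 s)|) - x| := by
    rw [abs_pos, sub_ne_zero]
    rcases hk0 with rfl | ⟨u, rfl⟩
    · rw [sub_self, abs_zero]
      have := hx1.1
      intro e
      rw [← e] at this
      linarith
    · exact hne u
  set m := |(|g k0 - g (z0 s)|) - x| with hmdef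
  obtain ⟨q', hq1, hq2⟩ := exists_rat_btwn (show max (x - m) (η / 2) < x from
    max_lt (by linarith) hx1.1)
  obtain ⟨q'', hq3, hq4⟩ := exists_rat_btwn (show x < min (x + m) η from
    lt_min (by linarith) hx1.2)
  have hq1a := (max_lt_iff.1 hq1).1
  have hq1b := (max_lt_iff.1 hq1).2
  have hq4a := (lt_min_iff.1 hq4).1
  have hq4b := (lt_min_iff.1 hq4).2
  refine ⟨q', q'', by linarith, by linarith, hq4b, ?_⟩
  intro u
  have h1 : m ≤ |(|dv s g u|) - x| := hmin (show vv s u ∈ {k : KK s | k = z0 s ∨ ∃ u, k = vv s u} from Or.inr ⟨u, rfl⟩)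
  rcases le_abs.1 h1 with h2 | h2
  · right
    linarith
  · left
    linarith

end Pool.Agent.Helper358.WB
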