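import Pool.Agent.Helper358.WB.Defs

set_option autoImplicit false

namespace Pool.Agent.Helper358.WB
open Set Topology


theorem exists_W_13455 : ∃ (W : Type) (_ : LinearOrder W) (_ : WellFoundedLT W),
    (∀ a : W, (Set.Iic a).Countable) ∧ ¬ (Set.univ : Set W).Countable := by
  refine ⟨(Cardinal.aleph 1).ord.ToType, inferInstance, inferInstance, ?_, ?_⟩
  · intro a
    have h1 : Cardinal.mk (Set.Iio a) < Cardinal.aleph 1 := Cardinal.mk_Iio_toType_ord_lt a
    have h2 : Cardinal.mk (Set.Iio a) ≤ Cardinal.aleph0 := by
      have h3 : Cardinal.mk (Set.Iio a) < Order.succ Cardinal.aleph0 := by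
        have e : Order.succ Cardinal.aleph0 = Cardinal.aleph 1 := Cardinal.succ_aleph0
        exact lt_of_lt_of_eq h1 e.symm
      exact Order.lt_succ_iff.1 h3
    rw [← Set.Iio_insert]
    exact (Cardinal.le_aleph0_iff_set_countable.1 h2).insert a
  · intro h
    have h1 := Cardinal.le_aleph0_iff_set_countable.2 h
    rw [Cardinal.mk_univ, Cardinal.mk_toType, Cardinal.card_ord] at h1
    exact absurd Cardinal.aleph0_lt_aleph_one (not_lt.2 h1)

/-- partial functions whose domain is a proper initial segment -/
structure TR_13455 (W : Type) [LinearOrder W] : Type where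
  val : W → Option II
  prop : ∃ a : W, ∀ i, val i = none ↔ a ≤ i

section
variable {W : Type} [LinearOrder W]

noncomputable def len_13455 (x : TR_13455 W) : W := x.2.choose

theorem len_spec_13455 (x : TR_13455 W) (i : W) : x.1 i = none ↔ len_13455 x ≤ i :=
  x.2.choose_spec i

theorem len_ne_13455 (x : TR_13455 W) (i : W) : x.1 i ≠ none ↔ i < len_13455 x := by
  rw [Ne, len_spec_13455, not_le]

theorem LEANTI_13455 {x y : TR_13455 W} (h1 : ∀ i, x.1 i = none ∨ y.1 i = x.1 i)
    (h2 : ∀ i, y.1 i = none ∨ x.1 i = y.1 i) (i : W) : x.1 i = y.1 i := by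
  rcases h1 i with h | h
  · rcases h2 i with h' | h'
    · rw [h, h']
    · exact h'
  · exact h.symm

instance PO_13455 : PartialOrder (TR_13455 W) where
  le x y := ∀ i, x.1 i = none ∨ y.1 i = x.1 i
  le_refl x i := Or.inr rfl
  le_trans x y z h1 h2 i := by
    rcases h1 i with h | h
    · exact Or.inl h
    · rcases h2 i with h' | h'
      · left; rw [← h, h']
      · right; rw [h', h]
  le_antisymm x y h1 h2 := by
    have hxy : x.val = y.val := by
     funext i
     exact LEANTI_13455 h1 h2 i
    cases x; cases y; cases hxy; rfl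
theorem le_iff_13455 (x y : TR_13455 W) : x ≤ y ↔ ∀ i, x.1 i = none ∨ y.1 i = x.1 i := Iff.rfl

open Classical in
/-- the meet -/
noncomputable def inf_13455 [WellFoundedLT W] (x y : TR_13455 W) : TR_13455 W :=
  ⟨fun i => if ∀ j ≤ i, x.1 j = y.1 j then x.1 i else none, by
    obtain ⟨m, hm, hmin⟩ := WellFounded.has_min (wellFounded_lt (α := W))
      {j | x.1 j ≠ y.1 j ∨ x.1 j = none} ⟨len_13455 x, Or.inr ((len_spec_13455 x _).2 le_rfl)⟩
    refine ⟨m, fun i => ⟨fun h => ?_, fun h => ?_⟩⟩
    · by_contra hlt
      rw [not_le] at hlt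
      replace h : (if ∀ j ≤ i, x.1 j = y.1 j then x.1 i else none) = none := h
      have h1 : ∀ j ≤ i, x.1 j = y.1 j := by
        intro j hj
        by_contra hne
        exact hmin j (Or.inl hne) (lt_of_le_of_lt hj hlt)
      rw [if_pos h1] at h
      have h2 : x.1 i = none := h
      exact hmin i (Or.inr h2) hlt
    · show (if ∀ j ≤ i, x.1 j = y.1 j then x.1 i else none) = none
      rcases hm with hm | hm
      · rw [if_neg]
        intro h1
        exact hm (h1 m h)
      · have : x.1 i = none := (len_spec_13455 x i).2 (((len_spec_13455 x m).1 hm).trans h)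
        split_ifs
        · exact this
        · rfl⟩

open Classical in
theorem inf_val_13455 [WellFoundedLT W] (x y : TR_13455 W) (i : W) :
    (inf_13455 x y).1 i = if ∀ j ≤ i, x.1 j = y.1 j then x.1 i else none := rfl

noncomputable instance SL_13455 [WellFoundedLT W] : SemilatticeInf (TR_13455 W) where
  inf := inf_13455
  inf_le_left x y := by
    intro i
    show (inf_13455 x y).1 i = none ∨ x.1 i = (inf_13455 x y).1 i
    rw [inf_val_13455]
    split_ifs
    · exact Or.inr rfl
    · exact Or.inl rfl
  inf_le_right x y := by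
    intro i
    show (inf_13455 x y).1 i = none ∨ y.1 i = (inf_13455 x y).1 i
    rw [inf_val_13455]
    split_ifs with h
    · exact Or.inr (h i le_rfl).symm
    · exact Or.inl rfl
  le_inf z x y h1 h2 := by
    intro i
    show z.1 i = none ∨ (inf_13455 x y).1 i = z.1 i
    by_cases hz : z.1 i = none
    · exact Or.inl hz
    · right
      have hzj : ∀ j ≤ i, z.1 j ≠ none := fun j hj =>
        (len_ne_13455 z j).2 (lt_of_le_of_lt hj ((len_ne_13455 z i).1 hz))
      have hx : ∀ j ≤ i, x.1 j = z.1 j := fun j hj => (h1 j).resolve_left (hzj j hj)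
      have hy : ∀ j ≤ i, y.1 j = z.1 j := fun j hj => (h2 j).resolve_left (hzj j hj)
      rw [inf_val_13455, if_pos (fun j hj => (hx j hj).trans (hy j hj).symm)]
      exact hx i le_rfl

theorem le_of_len_13455 (u v w : TR_13455 W) (hu : u ≤ w) (hv : v ≤ w)
    (h : len_13455 u ≤ len_13455 v) : u ≤ v := by
  intro i
  by_cases hi : u.1 i = none
  · exact Or.inl hi
  · right
    have h1 : i < len_13455 v := lt_of_lt_of_le ((len_ne_13455 u i).1 hi) h
    have h2 : v.1 i ≠ none := (len_ne_13455 v i).2 h1
    rw [← (hu i).resolve_left hi, (hv i).resolve_left h2]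

theorem len_lt_13455 (x y : TR_13455 W) (h : x < y) : len_13455 x < len_13455 y := by
  by_contra hc
  rw [not_lt] at hc
  exact absurd (le_of_len_13455 y x y le_rfl h.le hc) (not_le_of_gt h)

theorem len_le_13455 (x y : TR_13455 W) (h : x ≤ y) : len_13455 x ≤ len_13455 y := by
  rcases h.eq_or_lt with rfl | h
  · exact le_rfl
  · exact (len_lt_13455 x y h).le

open Classical in
/-- the successors -/
noncomputable def sc_13455 [WellFoundedLT W] (hmax : ∀ a : W, ∃ b, a < b) (x : TR_13455 W)
    (n : II) : TR_13455 W :=
  ⟨fun i => if i = len_13455 x then some n else x.1 i, by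
    obtain ⟨m, hm, hmin⟩ := WellFounded.has_min (wellFounded_lt (α := W))
      {j | len_13455 x < j} (hmax _)
    refine ⟨m, fun i => ?_⟩
    show (if i = len_13455 x then some n else x.1 i) = none ↔ m ≤ i
    by_cases hi : i = len_13455 x
    · rw [if_pos hi]
      constructor
      · intro h; exact absurd h (by simp)
      · intro h
        rw [hi] at h
        exact absurd (lt_of_lt_of_le hm h) (lt_irrefl _)
    · rw [if_neg hi, len_spec_13455]
      constructor
      · intro h
        by_contra hlt
        exact hmin i (lt_of_le_of_ne h (Ne.symm hi)) (not_le.1 hlt)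
      · intro h
        exact (lt_of_lt_of_le hm h).le⟩

open Classical in
theorem sc_val_13455 [WellFoundedLT W] (hmax : ∀ a : W, ∃ b, a < b) (x : TR_13455 W) (n : II)
    (i : W) : (sc_13455 hmax x n).1 i = if i = len_13455 x then some n else x.1 i := rfl

theorem isTree_13455 [WellFoundedLT W] (hmax : ∀ a : W, ∃ b, a < b)
    (hcnt : ∀ a : W, (Set.Iic a).Countable)
    (hseq : ∀ a : ℕ → W, ∃ b, ∀ k, a k ≤ b) (hne : Nonempty W) :
    IsTree (T := TR_13455 W) (I := II) (sc_13455 hmax) where
  lt_s t n := by
    refine lt_of_le_not_ge ?_ ?_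
    · intro i
      rw [sc_val_13455]
      split_ifs with h
      · left
        rw [h]
        exact (len_spec_13455 t _).2 le_rfl
      · exact Or.inr rfl
    · intro h
      have h1 := h (len_13455 t)
      rw [sc_val_13455, if_pos rfl, (len_spec_13455 t _).2 le_rfl] at h1
      simp at h1
  ex_s t v htv := by
    have hva : v.1 (len_13455 t) ≠ none := by
      intro h
      have h1 := (len_spec_13455 v _).1 h
      exact absurd (len_lt_13455 t v htv) (not_lt.2 h1)
    obtain ⟨n, hn⟩ := Option.ne_none_iff_exists'.1 hva
    refine ⟨n, fun i => ?_⟩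
    rw [sc_val_13455]
    split_ifs with h
    · right; rw [h, hn]
    · exact htv.le i
  s_inj t n n' v h h' := by
    have h1 := h (len_13455 t)
    have h2 := h' (len_13455 t)
    rw [sc_val_13455, if_pos rfl] at h1 h2
    have h3 := h1.resolve_left (by simp)
    have h4 := h2.resolve_left (by simp)
    rw [h3] at h4
    exact Option.some.inj h4
  le_s u t n h := by
    by_cases hu : u.1 (len_13455 t) = none
    · left
      intro i
      have h1 := h i
      rw [sc_val_13455] at h1
      split_ifs at h1 with h2
      · left; rw [h2]; exact hu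
      · exact h1
    · right
      apply le_antisymm h
      intro i
      rw [sc_val_13455]
      split_ifs with h2
      · right
        have h3 := (h (len_13455 t)).resolve_left hu
        rw [sc_val_13455, if_pos rfl] at h3
        rw [h2, h3]
      · by_cases h3 : t.1 i = none
        · exact Or.inl h3
        · right
          have h4 : i < len_13455 t := (len_ne_13455 t i).1 h3
          have h5 : u.1 i ≠ none :=
            (len_ne_13455 u i).2 (h4.trans ((len_ne_13455 u _).1 hu))
          have h6 := (h i).resolve_left h5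
          rw [sc_val_13455, if_neg h2] at h6
          exact h6.symm
  tree u v w hu hv := by
    rcases le_total (len_13455 u) (len_13455 v) with h | h
    · exact Or.inl (le_of_len_13455 u v w hu hv h)
    · exact Or.inr (le_of_len_13455 v u w hv hu h)
  wf := by
    refine Subrelation.wf (r := InvImage (· < ·) (len_13455 (W := W))) ?_
      (InvImage.wf _ wellFounded_lt)
    intro a b hab
    exact len_lt_13455 a b hab
  cnt v := by
    apply Set.MapsTo.countable_of_injOn (f := len_13455) (t := Set.Iic (len_13455 v)) ?_ ?_
      (hcnt _)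
    · intro u hu
      exact len_le_13455 u v hu
    · intro u hu u' hu' he
      exact le_antisymm (le_of_len_13455 u u' v hu hu' he.le)
        (le_of_len_13455 u' u v hu' hu he.ge)
  ub x hx := by
    classical
    have hmono : Monotone x := monotone_nat_of_le_succ hx
    obtain ⟨b, hb⟩ := hseq (fun k => len_13455 (x k))
    obtain ⟨m, hm, hmin⟩ := WellFounded.has_min (wellFounded_lt (α := W))
      {b | ∀ k, len_13455 (x k) ≤ b} ⟨b, hb⟩
    refine ⟨⟨fun i => if h : ∃ k, (x k).1 i ≠ none then (x h.choose).1 i else none, m,
      fun i => ⟨fun h => ?_, fun h => ?_⟩⟩, fun k i => ?_⟩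
    · replace h : (if h : ∃ k, (x k).1 i ≠ none then (x h.choose).1 i else none) = none := h
      by_cases hk : ∃ k, (x k).1 i ≠ none
      · rw [dif_pos hk] at h
        exact absurd h hk.choose_spec
      · push Not at hk
        by_contra hlt
        rw [not_le] at hlt
        exact hmin i (fun k => (len_spec_13455 (x k) i).1 (hk k)) hlt
    · show (if h : ∃ k, (x k).1 i ≠ none then (x h.choose).1 i else none) = none
      rw [dif_neg]
      push Not
      intro k
      exact (len_spec_13455 (x k) i).2 ((hm k).trans h)
    · by_cases hk : (x k).1 i = none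
      · exact Or.inl hk
      · right
        have hex : ∃ k, (x k).1 i ≠ none := ⟨k, hk⟩
        show (if h : ∃ k, (x k).1 i ≠ none then (x h.choose).1 i else none) = (x k).1 i
        rw [dif_pos hex]
        rcases le_total k hex.choose with h | h
        · exact (hmono h i).resolve_left hk
        · exact ((hmono h i).resolve_left hex.choose_spec).symm
  ne := by
    obtain ⟨m, _, hmin⟩ := WellFounded.has_min (wellFounded_lt (α := W)) Set.univ
      (Set.univ_nonempty)
    exact ⟨⟨fun _ => none, m, fun i => ⟨fun _ => not_lt.1 (hmin i trivial), fun _ => rfl⟩⟩⟩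

end

theorem exists_tree : ∃ (T : Type) (_ : SemilatticeInf T) (s : T → II → T), IsTree s := by
  obtain ⟨W, _, _, hc, hu⟩ := exists_W_13455
  have hseq : ∀ a : ℕ → W, ∃ b, ∀ k, a k < b := by
    intro a
    by_contra hcon
    push Not at hcon
    apply hu
    have : (Set.univ : Set W) ⊆ ⋃ k, Set.Iic (a k) := by
      intro x _
      obtain ⟨k, hk⟩ := hcon x
      exact Set.mem_iUnion.2 ⟨k, hk⟩
    exact (Set.countable_iUnion fun k => hc (a k)).mono this
  have hmax : ∀ a : W, ∃ b, a < b := by
    intro a
    obtain ⟨b, hb⟩ := hseq (fun _ => a)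
    exact ⟨b, hb 0⟩
  have hne : Nonempty W := by
    by_contra hcon
    rw [not_nonempty_iff] at hcon
    exact hu (Set.countable_univ_iff.2 inferInstance)
  exact ⟨TR_13455 W, SL_13455, sc_13455 hmax, isTree_13455 hmax hc
    (fun a => (hseq a).imp fun b hb k => (hb k).le) hne⟩

end Pool.Agent.Helper358.WB
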